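import Pool.Agent.Y939.NG.Genus

/-!
# Plane curves over finite fields without points of small degree
-/

set_option autoImplicit false

open Polynomial

namespace Pool.Agent.Y939.NG

section tri

variable {K : Type} [Field K]

/-- `X ^ m - X ^ i + 1` -/
noncomputable def tri (K : Type) [Field K] (m i : ℕ) : K[X] := X ^ m - X ^ i + 1

lemma degree_aux {m i : ℕ} (him : i < m) : (1 - X ^ i : K[X]).degree < m := by
  refine (degree_sub_le _ _).trans_lt (max_lt ?_ ?_)
  · rw [degree_one]
    exact_mod_cast lt_of_le_of_lt (Nat.zero_le _) him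
  · rw [degree_X_pow]
    exact_mod_cast him

lemma tri_eq (m i : ℕ) : tri K m i = X ^ m + (1 - X ^ i) := by unfold tri; ring

lemma tri_monic {m i : ℕ} (him : i < m) : (tri K m i).Monic := by
  rw [tri_eq]
  exact monic_X_pow_add (degree_aux him)

lemma natDegree_tri {m i : ℕ} (him : i < m) : (tri K m i).natDegree = m := by
  rw [tri_eq, natDegree_add_eq_left_of_degree_lt, natDegree_X_pow]
  rw [degree_X_pow]
  exact degree_aux him

lemma coprime_X {m i : ℕ} (hi : 0 < i) (him : i < m) : IsCoprime (tri K m i) X := by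
  refine ⟨1, X ^ (i - 1) - X ^ (m - 1), ?_⟩
  unfold tri
  have e1 : (X : K[X]) ^ m = X ^ (m - 1) * X := by
    rw [← pow_succ]
    congr 1
    omega
  have e2 : (X : K[X]) ^ i = X ^ (i - 1) * X := by
    rw [← pow_succ]
    congr 1
    omega
  rw [e1, e2]
  ring

lemma derivative_tri (m i : ℕ) : derivative (tri K m i) =
    C (m : K) * X ^ (m - 1) - C (i : K) * X ^ (i - 1) := by
  unfold tri
  rw [derivative_add, derivative_sub, derivative_X_pow, derivative_X_pow, derivative_one, add_zero]

lemma sep1 {m i : ℕ} (hi : 0 < i) (him : i < m) (h0 : (i : K) = 0) (h1 : (m : K) ≠ 0) :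
    (tri K m i).Separable := by
  unfold Separable
  rw [derivative_tri, h0, C_0, zero_mul, sub_zero,
    isCoprime_mul_unit_left_right (isUnit_C.2 (isUnit_iff_ne_zero.2 h1))]
  exact (coprime_X hi him).pow_right

lemma sep3 {m i : ℕ} (hi : 0 < i) (him : i < m) (h0 : (m : K) = 0) (h1 : (i : K) ≠ 0) :
    (tri K m i).Separable := by
  unfold Separable
  have e : C (m : K) * X ^ (m - 1) - C (i : K) * X ^ (i - 1) = C (-(i : K)) * X ^ (i - 1) := by
    rw [h0, C_0, zero_mul, zero_sub, C_neg, neg_mul]
  rw [derivative_tri, e,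
    isCoprime_mul_unit_left_right (isUnit_C.2 (isUnit_iff_ne_zero.2 (neg_ne_zero.2 h1)))]
  exact (coprime_X hi him).pow_right

lemma sep2 {m i : ℕ} (hi : 0 < i) (him : i < m) (h0 : (i : K) = m) (h1 : (m : K) ≠ 0) :
    (tri K m i).Separable := by
  unfold Separable
  have e1 : (X : K[X]) ^ (m - 1) = X ^ (i - 1) * X ^ (m - i) := by
    rw [← pow_add]
    congr 1
    omega
  have e2 : (X : K[X]) ^ m = X ^ i * X ^ (m - i) := by
    rw [← pow_add]
    congr 1
    omega
  have e : C (m : K) * X ^ (m - 1) - C (i : K) * X ^ (i - 1) =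
      C (m : K) * (X ^ (i - 1) * (X ^ (m - i) - 1)) := by
    rw [h0, e1]
    ring
  rw [derivative_tri, e, isCoprime_mul_unit_left_right (isUnit_C.2 (isUnit_iff_ne_zero.2 h1))]
  refine ((coprime_X hi him).pow_right).mul_right ⟨1, -X ^ i, ?_⟩
  unfold tri
  rw [e2]
  ring

lemma coprime_tri (h2 : (2 : K) = 0) (L u v : ℕ) :
    IsCoprime (tri K (3 * L * u) (3 * L * v)) (tri K (L + L) L) := by
  obtain ⟨ru, hu⟩ := sub_one_dvd_pow_sub_one ((X : K[X]) ^ (3 * L)) u
  obtain ⟨rv, hv⟩ := sub_one_dvd_pow_sub_one ((X : K[X]) ^ (3 * L)) v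
  refine ⟨1, -((X ^ L + 1) * (ru - rv)), ?_⟩
  have h2' : (2 : K[X]) = 0 := by
    have := congrArg C h2
    rwa [map_ofNat, C_0] at this
  have e3 : (X : K[X]) ^ (3 * L) = (X ^ L) ^ 3 := by rw [← pow_mul, mul_comm]
  have eu : (X : K[X]) ^ (3 * L * u) = 1 + (X ^ (3 * L) - 1) * ru := by
    rw [pow_mul, ← hu]; ring
  have ev : (X : K[X]) ^ (3 * L * v) = 1 + (X ^ (3 * L) - 1) * rv := by
    rw [pow_mul, ← hv]; ring
  have eL : (X : K[X]) ^ (L + L) = (X ^ L) ^ 2 := by rw [← pow_mul]; congr 1; ring
  unfold tri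
  rw [eu, ev, eL, e3]
  linear_combination (-(ru - rv)) * h2'

end tri

section T

variable {R : Type} [CommRing R]

/-- `X ^ (a + b) - X ^ a Z ^ b + Z ^ (a + b)` -/
noncomputable def T (R : Type) [CommRing R] (a b : ℕ) : MvPolynomial (Fin 2) R :=
  MvPolynomial.X 0 ^ (a + b) - MvPolynomial.X 0 ^ a * MvPolynomial.X 1 ^ b +
    MvPolynomial.X 1 ^ (a + b)

lemma T_hom (a b : ℕ) : (T R a b).IsHomogeneous (a + b) := by
  have h : ∀ (i : Fin 2) (n : ℕ), (MvPolynomial.X i ^ n : MvPolynomial (Fin 2) R).IsHomogeneous n := by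
    intro i n
    simpa using (MvPolynomial.isHomogeneous_X R i).pow n
  exact ((h 0 _).sub ((h 0 a).mul (h 1 b))).add (h 1 _)

variable {E : Type*} [CommRing E] [Algebra R E]

lemma aeval_T_one (a b : ℕ) (c : E) :
    MvPolynomial.aeval (w 1 c) (T R a b) = c ^ (a + b) - c ^ a + 1 := by
  simp [T, w]

lemma aeval_T_zero (a b : ℕ) (c : E) :
    MvPolynomial.aeval (w 0 c) (T R a b) = c ^ (a + b) - c ^ b + 1 := by
  simp [T, w]
  ring

lemma T_val {L a b : ℕ} (ha : L ∣ a) (hb : L ∣ b) (ha0 : 0 < a) (hb0 : 0 < b) {E : Type*} [Field E]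
    [Algebra R E] (s : Fin 2) (c : E) (hc : c ≠ 0 → c ^ L = 1) :
    MvPolynomial.aeval (w s c) (T R a b) = 1 := by
  have hpow : ∀ n, L ∣ n → 0 < n → c ≠ 0 → c ^ n = 1 := by
    rintro n ⟨m, rfl⟩ _ h
    rw [pow_mul, hc h, one_pow]
  have hs : ∀ s : Fin 2, s = 0 ∨ s = 1 := by decide
  by_cases h0 : c = 0
  · subst h0
    rcases hs s with rfl | rfl
    · rw [aeval_T_zero, zero_pow (by omega), zero_pow (by omega)]; ring
    · rw [aeval_T_one, zero_pow (by omega), zero_pow (by omega)]; ring
  · rcases hs s with rfl | rfl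
    · rw [aeval_T_zero, hpow _ (dvd_add ha hb) (by omega) h0, hpow _ hb hb0 h0]; ring
    · rw [aeval_T_one, hpow _ (dvd_add ha hb) (by omega) h0, hpow _ ha ha0 h0]; ring

end T

section D1

variable {K : Type} [Field K]

/-- `Y ^ (a + b) + c (X ^ (a + b) - X ^ a Z ^ b + Z ^ (a + b))` -/
noncomputable def D1 (c : K) (a b : ℕ) (h : 1 < a + b) : Dat K where
  n := a + b
  j := 1
  P := 0
  Q := MvPolynomial.C c * T K a b
  hj := h
  j_pos := one_pos
  hP := MvPolynomial.isHomogeneous_zero _ _ _
  hQ := (T_hom a b).C_mul c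

lemma D1_b_one (c : K) (a b : ℕ) (h : 1 < a + b) : (D1 c a b h).b 1 = C c * tri K (a + b) a := by
  unfold Dat.b D1
  simp only [map_mul, aeval_T_one, MvPolynomial.aeval_C]
  rfl

lemma D1_b_zero (c : K) (a b : ℕ) (h : 1 < a + b) : (D1 c a b h).b 0 = C c * tri K (a + b) b := by
  unfold Dat.b D1
  simp only [map_mul, aeval_T_zero, MvPolynomial.aeval_C]
  rfl

lemma D1_good (c : K) (hc : c ≠ 0) (a b : ℕ) (h : 1 < a + b) (ha : 0 < a) (hb : 0 < b)
    (ha0 : (a : K) = 0) (hb0 : (b : K) ≠ 0) : (D1 c a b h).Good := by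
  have hs : ∀ s : Fin 2, s = 0 ∨ s = 1 := by decide
  have hn : ((a + b : ℕ) : K) ≠ 0 := by
    push_cast
    rwa [ha0, zero_add]
  have hu : IsUnit (C c : K[X]) := isUnit_C.2 (isUnit_iff_ne_zero.2 hc)
  have hsep : ∀ s, ((D1 c a b h).b s).Separable := by
    intro s
    rcases hs s with rfl | rfl
    · rw [D1_b_zero]
      exact (sep2 hb (by omega) (by push_cast; rw [ha0, zero_add]) hn).unit_mul hu
    · rw [D1_b_one]
      exact (sep1 ha (by omega) ha0 hn).unit_mul hu
  have hdeg : ∀ s, ((D1 c a b h).b s).natDegree = (D1 c a b h).n := by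
    intro s
    rcases hs s with rfl | rfl
    · rw [D1_b_zero, natDegree_C_mul hc]
      exact natDegree_tri (by omega)
    · rw [D1_b_one, natDegree_C_mul hc]
      exact natDegree_tri (by omega)
  refine ⟨hn, Or.inr rfl, hsep, hdeg, fun s => ⟨(D1 c a b h).b s, ?_, ?_, dvd_rfl⟩⟩
  · intro hu'
    have := natDegree_eq_zero_of_isUnit hu'
    rw [hdeg s] at this
    have h' : a + b = 0 := this
    omega
  · have : (D1 c a b h).a s = 0 := by
      unfold Dat.a D1
      simp
    rw [this]
    exact dvd_zero _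

end D1

section D2

variable {K : Type} [Field K]

/-- the curve in characteristic two -/
noncomputable def D2 (K : Type) [Field K] (L t : ℕ) (hL : 0 < L) : Dat K where
  n := (3 * L * (2 * t) + 3 * L) + (L + L)
  j := L + L
  P := T K (3 * L * (2 * t)) (3 * L)
  Q := T K (3 * L * (2 * t)) (3 * L) * T K L L
  hj := by omega
  j_pos := by omega
  hP := by
    rw [Nat.add_sub_cancel]
    exact T_hom _ _
  hQ := (T_hom _ _).mul (T_hom _ _)

lemma D2_a_one (L t : ℕ) (hL : 0 < L) :
    (D2 K L t hL).a 1 = tri K (3 * L * (2 * t + 1)) (3 * L * (2 * t)) := by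
  unfold Dat.a D2
  simp only [aeval_T_one]
  unfold tri
  ring

lemma D2_a_zero (L t : ℕ) (hL : 0 < L) :
    (D2 K L t hL).a 0 = tri K (3 * L * (2 * t + 1)) (3 * L * 1) := by
  unfold Dat.a D2
  simp only [aeval_T_zero]
  unfold tri
  ring

lemma D2_b_one (L t : ℕ) (hL : 0 < L) :
    (D2 K L t hL).b 1 = tri K (3 * L * (2 * t + 1)) (3 * L * (2 * t)) * tri K (L + L) L := by
  unfold Dat.b D2
  simp only [map_mul, aeval_T_one]
  unfold tri
  ring

lemma D2_b_zero (L t : ℕ) (hL : 0 < L) :
    (D2 K L t hL).b 0 = tri K (3 * L * (2 * t + 1)) (3 * L * 1) * tri K (L + L) L := by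
  unfold Dat.b D2
  simp only [map_mul, aeval_T_zero]
  unfold tri
  ring

lemma D2_good (h2 : (2 : K) = 0) (L t : ℕ) (hL : 0 < L) (ht : 0 < t) (hL1 : (L : K) ≠ 0) :
    (D2 K L t hL).Good := by
  have hs : ∀ s : Fin 2, s = 0 ∨ s = 1 := by decide
  have h3 : (3 : K) = 1 := by linear_combination h2
  have hm : ((3 * L * (2 * t + 1) : ℕ) : K) ≠ 0 := by
    push_cast
    rw [h2, h3, zero_mul, zero_add, mul_one, one_mul]
    exact hL1
  have hlt : 3 * L * (2 * t) < 3 * L * (2 * t + 1) := by nlinarith
  have hlt2 : 3 * L * 1 < 3 * L * (2 * t + 1) := by nlinarith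
  have hpos : 0 < 3 * L * (2 * t) := by positivity
  have s2 : (tri K (L + L) L).Separable := sep3 hL (by omega) (by
    push_cast
    linear_combination (L : K) * h2) hL1
  have hsep : ∀ s, ((D2 K L t hL).b s).Separable := by
    intro s
    rcases hs s with rfl | rfl
    · rw [D2_b_zero]
      refine Separable.mul (sep2 (by omega) hlt2 ?_ hm) s2 (coprime_tri h2 L _ _)
      push_cast
      linear_combination (-(3 * (L : K) * t)) * h2
    · rw [D2_b_one]
      refine Separable.mul (sep1 hpos hlt ?_ hm) s2 (coprime_tri h2 L _ _)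
      push_cast
      linear_combination (3 * (L : K) * t) * h2
  refine ⟨?_, Or.inl ?_, hsep, ?_, ?_⟩
  · change (((3 * L * (2 * t) + 3 * L) + (L + L) : ℕ) : K) ≠ 0
    have : (((3 * L * (2 * t) + 3 * L) + (L + L) : ℕ) : K) = L := by
      push_cast
      linear_combination (3 * (L : K) * t + 2 * L) * h2
    rw [this]
    exact hL1
  · change ((L + L : ℕ) : K) = 0
    push_cast
    linear_combination (L : K) * h2
  · intro s
    have e : 3 * L * (2 * t + 1) + (L + L) = (D2 K L t hL).n := by
      change _ = (3 * L * (2 * t) + 3 * L) + (L + L)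
      ring
    rcases hs s with rfl | rfl
    · rw [D2_b_zero, (tri_monic hlt2).natDegree_mul (tri_monic (by omega)), natDegree_tri hlt2,
        natDegree_tri (by omega), e]
    · rw [D2_b_one, (tri_monic hlt).natDegree_mul (tri_monic (by omega)), natDegree_tri hlt,
        natDegree_tri (by omega), e]
  · intro s
    rcases hs s with rfl | rfl
    · refine ⟨tri K (3 * L * (2 * t + 1)) (3 * L * 1), ?_, ?_, ?_⟩
      · intro hu
        have := natDegree_eq_zero_of_isUnit hu
        rw [natDegree_tri hlt2] at this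
        omega
      · rw [D2_a_zero]
      · rw [D2_b_zero]
        exact dvd_mul_right _ _
    · refine ⟨tri K (3 * L * (2 * t + 1)) (3 * L * (2 * t)), ?_, ?_, ?_⟩
      · intro hu
        have := natDegree_eq_zero_of_isUnit hu
        rw [natDegree_tri hlt] at this
        omega
      · rw [D2_a_one]
      · rw [D2_b_one]
        exact dvd_mul_right _ _

end D2

lemma le_choose {N n : ℕ} (h : N + 3 ≤ n) : N ≤ (n - 1).choose 2 := by
  have h1 : (N + 2).choose 2 ≤ (n - 1).choose 2 := Nat.choose_le_choose 2 (by omega)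
  refine le_trans ?_ h1
  rw [Nat.choose_two_right, Nat.le_div_iff_mul_le (by norm_num)]
  have : N + 2 - 1 = N + 1 := by omega
  rw [this]
  nlinarith

/-- Over every finite field there are smooth plane curves of arbitrarily large genus without points
over the extensions of degree at most `r`. -/
theorem exists_curve (k : Type) [Field k] [Finite k] (r N : ℕ) :
    ∃ D : Dat k, D.Good ∧ N ≤ (D.n - 1).choose 2 ∧
      ∀ (K : Type) [Field K] [Algebra k K], 0 < Module.finrank k K → Module.finrank k K ≤ r →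
        ∀ (s : Fin 2) (a b : K), D.val s a b ≠ 0 := by
  classical
  have := Fintype.ofFinite k
  set q := Fintype.card k with hq
  have hq2 : 1 < q := Fintype.one_lt_card
  have hq0 : (q : k) = 0 := FiniteField.cast_card_eq_zero k
  set L := q ^ r.factorial - 1 with hL
  have hqr : 1 < q ^ r.factorial := Nat.one_lt_pow (Nat.factorial_ne_zero r) hq2
  have hLpos : 0 < L := by omega
  have hLk : (L : k) = -1 := by
    rw [hL, Nat.cast_sub hqr.le, Nat.cast_pow, hq0, zero_pow (Nat.factorial_ne_zero r)]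
    simp
  have hLne : (L : k) ≠ 0 := by
    rw [hLk]
    exact neg_ne_zero.2 one_ne_zero
  have hK : ∀ (K : Type) [Field K] [Algebra k K], 0 < Module.finrank k K → Module.finrank k K ≤ r →
      ∀ a : K, a ≠ 0 → a ^ L = 1 := by
    intro K _ _ h1 h2 a ha
    have hfin : Module.Finite k K := Module.finite_of_finrank_pos h1
    have : Finite K := Module.finite_of_finite k
    have := Fintype.ofFinite K
    have hcard : Fintype.card K = q ^ Module.finrank k K := Module.card_eq_pow_finrank
    obtain ⟨m, hm⟩ : q ^ Module.finrank k K - 1 ∣ L :=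
      Nat.pow_sub_one_dvd_pow_sub_one q (Nat.dvd_factorial h1 h2)
    have h3 := FiniteField.pow_card_sub_one_eq_one a ha
    rw [hcard] at h3
    rw [hm, pow_mul, h3, one_pow]
  by_cases h3 : ∃ c : k, c ≠ 0 ∧ c ≠ -1
  · obtain ⟨c, hc0, hc1⟩ := h3
    have hpos : 0 < q * L * (N + 3) := by positivity
    have hb : 1 < q * L * (N + 3) + L := by omega
    refine ⟨D1 c (q * L * (N + 3)) L hb, D1_good c hc0 _ _ hb (by positivity) hLpos ?_ hLne, ?_, ?_⟩
    · push_cast
      rw [hq0, zero_mul, zero_mul]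
    · apply le_choose
      change N + 3 ≤ q * L * (N + 3) + L
      nlinarith [Nat.mul_pos (show 0 < q by omega) hLpos]
    · intro K _ _ h1 h2 s a b
      have hT : MvPolynomial.aeval (w s a) (T k (q * L * (N + 3)) L) = 1 :=
        T_val (L := L) ⟨q * (N + 3), by ring⟩ dvd_rfl (by positivity) hLpos s a (hK K h1 h2 a)
      have hb' : b ^ (q * L * (N + 3) + L) = 0 ∨ b ^ (q * L * (N + 3) + L) = 1 := by
        by_cases hb0 : b = 0
        · left
          rw [hb0, zero_pow (by omega)]
        · right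
          have : q * L * (N + 3) + L = L * (q * (N + 3) + 1) := by ring
          rw [this, pow_mul, hK K h1 h2 b hb0, one_pow]
      have hv : (D1 c (q * L * (N + 3)) L hb).val s a b =
          b ^ (q * L * (N + 3) + L) + algebraMap k K c := by
        unfold Dat.val D1
        simp only [map_mul, hT, MvPolynomial.aeval_C, map_zero, zero_mul, zero_add, mul_one]
      rw [hv]
      rcases hb' with h | h
      · rw [h, zero_add]
        exact (_root_.map_ne_zero _).2 hc0
      · rw [h]
        intro h4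
        apply hc1
        apply (algebraMap k K).injective
        rw [map_neg, map_one]
        linear_combination h4
  · push Not at h3
    have h2 : (2 : k) = 0 := by
      by_cases h : (1 : k) = -1
      · linear_combination h
      · exact absurd (h3 1 one_ne_zero) h
    refine ⟨D2 k L (N + 1) hLpos, D2_good h2 L (N + 1) hLpos (by omega) hLne, ?_, ?_⟩
    · apply le_choose
      change N + 3 ≤ (3 * L * (2 * (N + 1)) + 3 * L) + (L + L)
      nlinarith
    · intro K _ _ h1 h2' s a b
      have hT : MvPolynomial.aeval (w s a) (T k (3 * L * (2 * (N + 1))) (3 * L)) = 1 :=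
        T_val (L := L) ⟨3 * (2 * (N + 1)), by ring⟩ ⟨3, by ring⟩ (by positivity) (by positivity) s a
          (hK K h1 h2' a)
      have hT2 : MvPolynomial.aeval (w s a) (T k L L) = 1 :=
        T_val (L := L) dvd_rfl dvd_rfl hLpos hLpos s a (hK K h1 h2' a)
      have hv : (D2 k L (N + 1) hLpos).val s a b =
          b ^ ((3 * L * (2 * (N + 1)) + 3 * L) + (L + L)) + (b ^ (L + L) + 1) := by
        unfold Dat.val D2
        simp only [map_mul, hT, hT2, one_mul]
      rw [hv]
      have h2K : (2 : K) = 0 := by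
        have := congrArg (algebraMap k K) h2
        rwa [map_ofNat, map_zero] at this
      by_cases hb0 : b = 0
      · rw [hb0, zero_pow (by omega), zero_pow (by omega)]
        simp
      · have e1 : (3 * L * (2 * (N + 1)) + 3 * L) + (L + L) = L * (3 * (2 * (N + 1)) + 5) := by ring
        have e2 : L + L = L * 2 := by ring
        rw [e1, e2, pow_mul, pow_mul, hK K h1 h2' b hb0, one_pow, one_pow]
        intro h
        have : (1 : K) = 0 := by linear_combination h - h2K
        exact one_ne_zero this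

end Pool.Agent.Y939.NG
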