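import Pool.Agent.Y939.NG.Ring
import Pool.Agent.H666R3.NG.Cech

/-!
# The first Čech cohomology of the structure sheaf of the plane curves
-/

set_option autoImplicit false

open Polynomial Module

namespace Pool.Agent.Y939.NG

section ring

variable {K : Type} [Field K] (D : Dat K) (s : Fin 2)

/-- The basis `1, y, …, y ^ (n - 1)` over `K[x]`. -/
noncomputable def bA : Basis (Fin D.n) K[X] (D.A s) :=
  (AdjoinRoot.powerBasis' (D.pol_monic s)).basis.reindex (finCongr (D.natDegree_pol s))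

lemma bA_apply (i : Fin D.n) : bA D s i = D.y s ^ (i : ℕ) := by
  unfold bA
  rw [Basis.reindex_apply, PowerBasis.basis_eq_pow]
  rfl

lemma span_A : Submodule.span K
    (Set.range fun p : ℕ × Fin D.n => D.x s ^ p.1 * D.y s ^ (p.2 : ℕ)) = ⊤ := by
  let b : Basis (ℕ × Fin D.n) K (D.A s) := (Polynomial.basisMonomials K).smulTower (bA D s)
  have hb : (fun p : ℕ × Fin D.n => D.x s ^ p.1 * D.y s ^ (p.2 : ℕ)) = b := by
    funext p
    rw [Basis.smulTower_apply, bA_apply, Polynomial.coe_basisMonomials, Algebra.smul_def]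
    congr 1
    have : (monomial p.1 1 : K[X]) = X ^ p.1 := by
      rw [← X_pow_eq_monomial]
    change _ = algebraMap K[X] (D.A s) (monomial p.1 1)
    rw [this, map_pow]
    rfl
  rw [hb, b.span_eq]

lemma x_ne_zero : D.x s ≠ 0 := by
  intro h
  have h1 : AdjoinRoot.of (D.pol s) Polynomial.X = 0 := h
  have h3 := AdjoinRoot.of.injective_of_degree_ne_zero (f := D.pol s) (by
    rw [Polynomial.degree_eq_natDegree (D.pol_monic s).ne_zero, D.natDegree_pol s]
    exact_mod_cast D.n_pos.ne')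
  rw [← map_zero (AdjoinRoot.of (D.pol s))] at h1
  exact Polynomial.X_ne_zero (h3 h1)

variable {D} {s}
variable {B : Type} [CommRing B] [Algebra K B]

lemma range_eq_span (r : D.A s →ₐ[K] B) :
    LinearMap.range r.toLinearMap = Submodule.span K
      (Set.range fun p : ℕ × Fin D.n => r (D.x s) ^ p.1 * r (D.y s) ^ (p.2 : ℕ)) := by
  rw [← Submodule.map_top, ← span_A, Submodule.map_span, ← Set.range_comp]
  congr 2
  funext p
  simp

variable [Algebra (D.A s) B] [IsScalarTower K (D.A s) B] [IsLocalization.Away (D.x s) B]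

lemma exists_basis (u : Bˣ) (hu : (u : B) = algebraMap (D.A s) B (D.x s)) :
    ∃ b : Basis (ℤ × Fin D.n) K B, ∀ p, b p = ((u ^ p.1 : Bˣ) : B) *
      (algebraMap (D.A s) B (D.y s)) ^ (p.2 : ℕ) := by
  let i1 : Algebra K[X] B := ((algebraMap (D.A s) B).comp (algebraMap K[X] (D.A s))).toAlgebra
  have t1 : IsScalarTower K[X] (D.A s) B := IsScalarTower.of_algebraMap_eq (fun r => rfl)
  let i2 : Algebra (LaurentPolynomial K) B := (LaurentPolynomial.eval₂ (algebraMap K B) u).toAlgebra
  have t2 : IsScalarTower K[X] (LaurentPolynomial K) B := by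
    apply IsScalarTower.of_algebraMap_eq'
    apply Polynomial.ringHom_ext
    · intro a
      change algebraMap (D.A s) B (algebraMap K[X] (D.A s) (C a)) =
        LaurentPolynomial.eval₂ (algebraMap K B) u (Polynomial.toLaurent (C a))
      rw [LaurentPolynomial.eval₂_toLaurent, eval₂_C, IsScalarTower.algebraMap_apply K (D.A s) B]
      rfl
    · change algebraMap (D.A s) B (algebraMap K[X] (D.A s) X) =
        LaurentPolynomial.eval₂ (algebraMap K B) u (Polynomial.toLaurent X)
      rw [LaurentPolynomial.eval₂_toLaurent, eval₂_X, hu]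
      rfl
  have t3 : IsScalarTower K (LaurentPolynomial K) B := by
    apply IsScalarTower.of_algebraMap_eq
    intro a
    change _ = LaurentPolynomial.eval₂ (algebraMap K B) u (LaurentPolynomial.C a)
    rw [LaurentPolynomial.eval₂_C]
  have l1 : IsLocalization (Algebra.algebraMapSubmonoid (D.A s) (Submonoid.powers (X : K[X]))) B := by
    rw [Algebra.algebraMapSubmonoid_powers]
    exact inferInstanceAs (IsLocalization.Away (D.x s) B)
  let bL : Basis (Fin D.n) (LaurentPolynomial K) B :=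
    (bA D s).localizationLocalization (LaurentPolynomial K) (Submonoid.powers (X : K[X])) B
  refine ⟨(AddMonoidAlgebra.basis ℤ K).smulTower bL, fun p => ?_⟩
  rw [Basis.smulTower_apply, Basis.localizationLocalization_apply, bA_apply,
    AddMonoidAlgebra.basis_apply, Algebra.smul_def, map_pow]
  congr 1
  change LaurentPolynomial.eval₂ (algebraMap K B) u (LaurentPolynomial.T p.1) = _
  rw [LaurentPolynomial.eval₂_T]

end ring

lemma sum_pred (n : ℕ) : ∑ i ∈ Finset.range n, (i - 1) = (n - 1).choose 2 := by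
  induction n with
  | zero => rfl
  | succ n ih =>
    rw [Finset.sum_range_succ, ih]
    rcases n with _ | _ | n
    · rfl
    · rfl
    · change (n + 1).choose 2 + (n + 1) = (n + 2).choose 2
      rw [Nat.choose_succ_succ' (n + 1) 1, Nat.choose_one_right, add_comm]

lemma card_compl (n : ℕ) :
    ({p : ℤ × Fin n | p.1 + (p.2 : ℕ) ≤ 0} ∪ {p | 0 ≤ p.1})ᶜ.Finite ∧
    ({p : ℤ × Fin n | p.1 + (p.2 : ℕ) ≤ 0} ∪ {p | 0 ≤ p.1})ᶜ.ncard = (n - 1).choose 2 := by
  classical
  let T : Finset (Σ _ : Fin n, ℤ) :=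
    (Finset.univ : Finset (Fin n)).sigma fun i => Finset.Ioo (-((i : ℕ) : ℤ)) 0
  let f : (Σ _ : Fin n, ℤ) → ℤ × Fin n := fun p => (p.2, p.1)
  have hf : Function.Injective f := by
    rintro ⟨i, m⟩ ⟨i', m'⟩ h
    simp only [f, Prod.mk.injEq] at h
    obtain ⟨rfl, rfl⟩ := h
    rfl
  have e : ({p : ℤ × Fin n | p.1 + (p.2 : ℕ) ≤ 0} ∪ {p | 0 ≤ p.1})ᶜ =
      ((T.image f : Finset (ℤ × Fin n)) : Set (ℤ × Fin n)) := by
    ext ⟨m, i⟩
    simp only [Set.mem_compl_iff, Set.mem_union, Set.mem_setOf_eq, Finset.coe_image, Set.mem_image,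
      T, Finset.mem_coe, Finset.mem_sigma, Finset.mem_univ, true_and, Finset.mem_Ioo, f,
      Prod.mk.injEq]
    constructor
    · intro h
      refine ⟨⟨i, m⟩, ?_, rfl, rfl⟩
      change -((i : ℕ) : ℤ) < m ∧ m < 0
      push Not at h
      omega
    · rintro ⟨⟨i', m'⟩, h, rfl, rfl⟩
      have h' : -((i' : ℕ) : ℤ) < m' ∧ m' < 0 := h
      push Not
      constructor
      · change 0 < m' + ((i' : ℕ) : ℤ)
        omega
      · exact h'.2
  rw [e]
  refine ⟨Finset.finite_toSet _, ?_⟩
  rw [Set.ncard_coe_finset, Finset.card_image_of_injective _ hf, Finset.card_sigma, ← sum_pred,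
    ← Fin.sum_univ_eq_sum_range (fun i => i - 1) n]
  refine Finset.sum_congr rfl fun i _ => ?_
  rw [Int.card_Ioo]
  omega

section ring

variable {K : Type} [Field K] {D : Dat K} {s s' : Fin 2}
variable {B : Type} [CommRing B] [Algebra K B]
variable [Algebra (D.A s) B] [IsScalarTower K (D.A s) B] [IsLocalization.Away (D.x s) B]

/-- The computation of the Čech cohomology. -/
theorem cech (u : Bˣ) (hu : (u : B) = algebraMap (D.A s) B (D.x s)) (r : D.A s' →ₐ[K] B)
    (h1 : r (D.x s') = ((u⁻¹ : Bˣ) : B))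
    (h2 : r (D.y s') = algebraMap (D.A s) B (D.y s) * ((u⁻¹ : Bˣ) : B)) :
    Module.Finite K (B ⧸ (LinearMap.range r.toLinearMap ⊔
      LinearMap.range (IsScalarTower.toAlgHom K (D.A s) B).toLinearMap)) ∧
    finrank K (B ⧸ (LinearMap.range r.toLinearMap ⊔
      LinearMap.range (IsScalarTower.toAlgHom K (D.A s) B).toLinearMap)) = (D.n - 1).choose 2 := by
  obtain ⟨b, hb⟩ := exists_basis (K := K) u hu
  have e1 : LinearMap.range r.toLinearMap =
      Submodule.span K (b '' {p | p.1 + (p.2 : ℕ) ≤ 0}) := by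
    rw [range_eq_span]
    congr 1
    ext z
    constructor
    · rintro ⟨⟨n, i⟩, rfl⟩
      refine ⟨(-(n + (i : ℕ) : ℤ), i), by simp, ?_⟩
      rw [hb]
      simp only [h1, h2]
      rw [mul_pow, ← Units.val_pow_eq_pow_val, ← Units.val_pow_eq_pow_val, neg_add, zpow_add,
        zpow_neg, zpow_neg, zpow_natCast, zpow_natCast, inv_pow, inv_pow, Units.val_mul]
      ring
    · rintro ⟨⟨m, i⟩, hm, rfl⟩
      have hm' : m + (i : ℕ) ≤ 0 := hm
      obtain ⟨n, hn⟩ := Int.eq_ofNat_of_zero_le (show 0 ≤ -(m + (i : ℕ)) by omega)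
      refine ⟨(n, i), ?_⟩
      have hm2 : m = -(n + (i : ℕ) : ℤ) := by
        have : ((n : ℕ) : ℤ) = Int.ofNat n := rfl
        omega
      rw [hb]
      simp only [h1, h2]
      rw [hm2, mul_pow, ← Units.val_pow_eq_pow_val, ← Units.val_pow_eq_pow_val, neg_add, zpow_add,
        zpow_neg, zpow_neg, zpow_natCast, zpow_natCast, inv_pow, inv_pow, Units.val_mul]
      ring
  have e2 : LinearMap.range (IsScalarTower.toAlgHom K (D.A s) B).toLinearMap =
      Submodule.span K (b '' {p | 0 ≤ p.1}) := by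
    rw [range_eq_span]
    congr 1
    ext z
    constructor
    · rintro ⟨⟨n, i⟩, rfl⟩
      refine ⟨((n : ℤ), i), by simp, ?_⟩
      rw [hb]
      simp only [IsScalarTower.coe_toAlgHom', ← hu]
      rw [zpow_natCast, Units.val_pow_eq_pow_val]
    · rintro ⟨⟨m, i⟩, hm, rfl⟩
      obtain ⟨n, rfl⟩ := Int.eq_ofNat_of_zero_le (show 0 ≤ m from hm)
      refine ⟨(n, i), ?_⟩
      rw [hb]
      simp only [IsScalarTower.coe_toAlgHom', ← hu]
      rw [zpow_natCast, Units.val_pow_eq_pow_val]
  have e3 : LinearMap.range r.toLinearMap ⊔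
      LinearMap.range (IsScalarTower.toAlgHom K (D.A s) B).toLinearMap =
      Submodule.span K (b '' ({p | p.1 + (p.2 : ℕ) ≤ 0} ∪ {p | 0 ≤ p.1})) := by
    rw [e1, e2, ← Submodule.span_union, Set.image_union]
  rw [e3]
  have hfin := Pool.Agent.H666R3.NG.Fermat.finrank_quot b
    ({p | p.1 + (p.2 : ℕ) ≤ 0} ∪ {p | 0 ≤ p.1}) (card_compl D.n).1
  refine ⟨hfin.1, ?_⟩
  rw [hfin.2, (card_compl D.n).2]

end ring

end Pool.Agent.Y939.NG
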