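import Pool.Agent.H666R3.NG.Curve
import Pool.Agent.Y939.NG.Cech

/-!
# The projective plane curves `Y ^ n + Y ^ j P(X, Z) + Q(X, Z) = 0`
-/

set_option autoImplicit false

open MvPolynomial AlgebraicGeometry CategoryTheory Limits TopologicalSpace

namespace Pool.Agent.Y939.NG

open Pool.Agent.Helper198.Sch

attribute [local instance] MvPolynomial.gradedAlgebra

section defs

variable {R : Type} [CommRing R] (D : Dat R)

/-- The form `Y ^ n + Y ^ j P(X, Z) + Q(X, Z)`. -/
noncomputable def Dat.form : MvPolynomial (Fin 3) R :=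
  X 0 ^ D.n + (rename Fin.succ D.P * X 0 ^ D.j + rename Fin.succ D.Q)

lemma Dat.form_hom : D.form.IsHomogeneous D.n := by
  unfold Dat.form
  apply IsHomogeneous.add
  · simpa using (isHomogeneous_X R (0 : Fin 3)).pow D.n
  · apply IsHomogeneous.add
    · have h1 : (rename Fin.succ D.P : MvPolynomial (Fin 3) R).IsHomogeneous (D.n - D.j) :=
        D.hP.rename_isHomogeneous
      have h2 : (X 0 ^ D.j : MvPolynomial (Fin 3) R).IsHomogeneous D.j := by
        simpa using (isHomogeneous_X R (0 : Fin 3)).pow D.j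
      have h3 := h1.mul h2
      have h4 := D.hj
      rwa [show D.n - D.j + D.j = D.n by omega] at h3
    · exact D.hQ.rename_isHomogeneous

/-- The homogeneous ideal generated by the form. -/
noncomputable def Dat.J : HI (Fin 3) R :=
  HI.ofSet {D.form} (by rintro f rfl; exact ⟨D.n, D.form_hom⟩)

/-- The plane curve. -/
noncomputable abbrev Dat.curve : Scheme.{0} := V D.J

lemma Dat.aeval_form {E : Type*} [CommRing E] [Algebra R E] (u : Fin 3 → E) :
    aeval u D.form = u 0 ^ D.n + (aeval (u ∘ Fin.succ) D.P * u 0 ^ D.j +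
      aeval (u ∘ Fin.succ) D.Q) := by
  simp [Dat.form, aeval_rename]

lemma Dat.aeval_J {E : Type*} [CommRing E] [Algebra R E] (u : Fin 3 → E)
    (hu : aeval u D.form = 0) : ∀ f ∈ D.J.toIdeal, aeval u f = 0 := by
  apply aeval_ofSet
  rintro f rfl
  exact hu

variable (s : Fin 2)

/-- the universal point. -/
noncomputable def Dat.pt (i : Fin 3) : D.A s :=
  @Fin.cons 2 (fun _ => D.A s) (D.y s) (w s (D.x s)) i

lemma Dat.pt_zero : D.pt s 0 = D.y s := rfl

lemma Dat.pt_succ (i : Fin 2) : D.pt s i.succ = w s (D.x s) i := rfl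

lemma w_self {E : Type*} [One E] (c : E) : w s c s = 1 := by simp [w]

lemma Dat.pt_self : D.pt s s.succ = 1 := by rw [D.pt_succ, w_self]

lemma rev_ne : s.rev ≠ s := by
  revert s; decide

lemma w_rev {E : Type*} [One E] (c : E) : w s c s.rev = c := by
  simp [w, rev_ne]

lemma eq_or_rev (i : Fin 2) : i = s ∨ i = s.rev := by
  revert s i; decide

lemma Dat.pt_form : aeval (D.pt s) D.form = 0 := by
  rw [D.aeval_form]
  exact D.rel s

lemma Dat.frac_eq : (frac D.J s.succ ∘ Fin.succ) = w s (frac D.J s.succ s.rev.succ) := by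
  funext i
  rcases eq_or_rev s i with rfl | rfl
  · rw [w_self]
    exact frac_self _ _
  · rw [w_rev]
    rfl

lemma Dat.frac_rel : D.val s (frac D.J s.succ s.rev.succ) (frac D.J s.succ 0) = 0 := by
  have h := aeval_frac_eq_zero D.J s.succ D.form (mem_ofSet rfl)
  rw [D.aeval_form, D.frac_eq] at h
  exact h

/-- The chart ring is the coordinate ring of the affine curve. -/
noncomputable def Dat.chEquiv : Ch D.J s.succ ≃ₐ[R] D.A s :=
  AlgEquiv.ofAlgHom
    (chLift D.J s.succ (D.pt s) (D.pt_self s) (D.aeval_J _ (D.pt_form s)))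
    (D.lift s (frac D.J s.succ s.rev.succ) (frac D.J s.succ 0) (D.frac_rel s))
    (by
      apply D.ext_A
      · rw [AlgHom.comp_apply, AlgHom.id_apply, D.lift_x, chLift_frac, D.pt_succ, w_rev]
      · rw [AlgHom.comp_apply, AlgHom.id_apply, D.lift_y, chLift_frac, D.pt_zero])
    (by
      apply ch_algHom_ext
      intro i
      rw [AlgHom.comp_apply, chLift_frac, AlgHom.id_apply]
      refine Fin.cases ?_ (fun i => ?_) i
      · rw [D.pt_zero, D.lift_y]
      · rw [D.pt_succ]
        rcases eq_or_rev s i with rfl | rfl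
        · rw [w_self, map_one, frac_self]
        · rw [w_rev, D.lift_x])

lemma Dat.chEquiv_y : D.chEquiv s (frac D.J s.succ 0) = D.y s := by
  change chLift D.J s.succ (D.pt s) (D.pt_self s) (D.aeval_J _ (D.pt_form s)) _ = _
  rw [chLift_frac, D.pt_zero]

lemma Dat.chEquiv_x : D.chEquiv s (frac D.J s.succ s.rev.succ) = D.x s := by
  change chLift D.J s.succ (D.pt s) (D.pt_self s) (D.aeval_J _ (D.pt_form s)) _ = _
  rw [chLift_frac, D.pt_succ, w_rev]

lemma hom_mem {A : Type} [CommRing A] [Algebra R A] (I : Ideal A) {d : ℕ} (hd : 0 < d)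
    {P : MvPolynomial (Fin 2) R} (hP : P.IsHomogeneous d) (u : Fin 2 → A) (hu : ∀ i, u i ∈ I) :
    aeval u P ∈ I := by
  rw [P.as_sum, map_sum]
  apply Ideal.sum_mem
  intro m hm
  rw [aeval_monomial]
  apply Ideal.mul_mem_left
  have h1 : m.degree = d := hP.degree_eq_sum_deg_support hm ▸ rfl
  have h2 : m 0 + m 1 = d := by
    rw [← h1, Finsupp.degree_eq_sum]
    simp [Fin.sum_univ_two]
  rw [Finsupp.prod_fintype _ _ (by simp), Fin.prod_univ_two]
  by_cases h0 : m 0 = 0
  · exact Ideal.mul_mem_left _ _ (I.pow_mem_of_mem (hu 1) _ (by omega))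
  · exact Ideal.mul_mem_right _ _ (I.pow_mem_of_mem (hu 0) _ (by omega))

lemma Dat.exists_chart (x : V D.J) : ∃ s : Fin 2, x ∈ V.D D.J s.succ := by
  by_contra hcon
  push Not at hcon
  obtain ⟨c, hc⟩ := V.exists_mem_D D.J x
  have hc0 : c = 0 := by
    revert hc
    refine Fin.cases (fun _ => rfl) (fun i hi => absurd hi (hcon i)) c
  subst hc0
  rw [V.mem_D_iff] at hc
  apply hc
  set I := (ProjectiveSpectrum.asHomogeneousIdeal (𝒜 := qgrad D.J.toIdeal) x).toIdeal with hI
  have h1 : ∀ i : Fin 2, gen D.J i.succ ∈ I := by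
    intro i
    have := hcon i
    rw [V.mem_D_iff, not_not] at this
    exact this
  have hr : gen D.J 0 ^ D.n + (aeval (fun i : Fin 2 => gen D.J i.succ) D.P * gen D.J 0 ^ D.j +
      aeval (fun i : Fin 2 => gen D.J i.succ) D.Q) = 0 := by
    have h : Ideal.Quotient.mk D.J.toIdeal D.form = 0 :=
      Ideal.Quotient.eq_zero_iff_mem.2 (mem_ofSet rfl)
    have h2 : ∀ F : MvPolynomial (Fin 3) R, Ideal.Quotient.mk D.J.toIdeal F =
        aeval (fun i => gen D.J i) F := by
      intro F
      have e : Ideal.Quotient.mkₐ R D.J.toIdeal = aeval (fun i => gen D.J i) := by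
        apply MvPolynomial.algHom_ext
        intro i
        rw [aeval_X]
        rfl
      exact congrArg (fun f => f F) e
    rw [h2, D.aeval_form] at h
    exact h
  have h3 : gen D.J 0 ^ D.n ∈ I := by
    have e : gen D.J 0 ^ D.n = -(aeval (fun i : Fin 2 => gen D.J i.succ) D.P * gen D.J 0 ^ D.j +
      aeval (fun i : Fin 2 => gen D.J i.succ) D.Q) := by
      linear_combination hr
    rw [e]
    apply I.neg_mem
    apply I.add_mem
    · apply Ideal.mul_mem_right
      exact hom_mem I (by have := D.hj; omega) D.hP _ h1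
    · exact hom_mem I D.n_pos D.hQ _ h1
  exact x.isPrime.mem_of_pow_mem _ h3

end defs

section smooth

variable {K : Type} [Field K] (D : Dat K) (hD : D.Good)

include hD

set_option backward.isDefEq.respectTransparency.types false in
lemma Dat.Good.smooth_curve : SmoothOfRelativeDimension 1 (V.str D.J) := by
  apply IsZariskiLocalAtSource.of_openCover
    (V.coverOf D.J Fin.succ (fun x => D.exists_chart x)).openCover
  intro (s : Fin 2)
  change SmoothOfRelativeDimension 1 (V.chart D.J s.succ ≫ V.str D.J)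
  rw [V.chart_str, HasRingHomProperty.Spec_iff (P := @SmoothOfRelativeDimension 1)]
  set t1 : Ch D.J s.succ := (D.chEquiv s).symm (D.ty s) with ht1
  set t2 : Ch D.J s.succ := (D.chEquiv s).symm (D.tx s) with ht2
  refine ⟨{t1, t2}, ?_, ?_⟩
  · rw [Ideal.eq_top_iff_one]
    obtain ⟨p, q, hpq⟩ := Dat.Good.cover D s hD
    have h1 : (1 : Ch D.J s.succ) = ((D.chEquiv s).symm p) * t1 + ((D.chEquiv s).symm q) * t2 := by
      rw [ht1, ht2, ← map_mul, ← map_mul, ← map_add, hpq, map_one]
    rw [h1]
    exact Ideal.add_mem _ (Ideal.mul_mem_left _ _ (Ideal.subset_span (by simp)))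
      (Ideal.mul_mem_left _ _ (Ideal.subset_span (by simp)))
  · rintro t (rfl | hs)
    · have h3 := D.smooth_ty s (D.chEquiv s) t1 (AlgEquiv.apply_symm_apply _ _)
      have := (RingHom.isStandardSmoothOfRelativeDimension_algebraMap 1).2 h3
      rw [IsScalarTower.algebraMap_eq K (Ch D.J s.succ)] at this
      exact this
    · rw [Set.mem_singleton_iff] at hs
      subst hs
      have h3 := D.smooth_tx s (Dat.Good.beta_ne D s hD) (D.chEquiv s) t2
        (AlgEquiv.apply_symm_apply _ _)
      have := (RingHom.isStandardSmoothOfRelativeDimension_algebraMap 1).2 h3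
      rw [IsScalarTower.algebraMap_eq K (Ch D.J s.succ)] at this
      exact this

end smooth

section integral

/-- Base change of the data. -/
noncomputable def Dat.map {R R' : Type} [CommRing R] [CommRing R'] (φ : R →+* R') (D : Dat R) :
    Dat R' where
  n := D.n
  j := D.j
  P := MvPolynomial.map φ D.P
  Q := MvPolynomial.map φ D.Q
  hj := D.hj
  j_pos := D.j_pos
  hP := D.hP.map φ
  hQ := D.hQ.map φ

lemma Dat.map_form {R R' : Type} [CommRing R] [CommRing R'] (φ : R →+* R') (D : Dat R) :
    MvPolynomial.map φ D.form = (D.map φ).form := by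
  simp [Dat.form, Dat.map, MvPolynomial.map_rename]

lemma aeval_w_map {R R' : Type} [CommRing R] [CommRing R'] (φ : R →+* R') (s : Fin 2)
    (P : MvPolynomial (Fin 2) R) : aeval (w s (Polynomial.X : Polynomial R')) (MvPolynomial.map φ P) =
      (aeval (w s (Polynomial.X : Polynomial R)) P).map φ := by
  induction P using MvPolynomial.induction_on with
  | C a => simp
  | add p q hp hq => simp [hp, hq]
  | mul_X p i hp =>
    rw [map_mul, map_mul, map_mul, hp, map_X, aeval_X, aeval_X, Polynomial.map_mul]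
    congr 1
    unfold w
    split_ifs <;> simp

lemma Dat.map_a {R R' : Type} [CommRing R] [CommRing R'] (φ : R →+* R') (D : Dat R) (s : Fin 2) :
    (D.map φ).a s = (D.a s).map φ := aeval_w_map φ s D.P

lemma Dat.map_b {R R' : Type} [CommRing R] [CommRing R'] (φ : R →+* R') (D : Dat R) (s : Fin 2) :
    (D.map φ).b s = (D.b s).map φ := aeval_w_map φ s D.Q

lemma Dat.Good.map {K L : Type} [Field K] [Field L] (φ : K →+* L) {D : Dat K} (hD : D.Good) :
    (D.map φ).Good where
  n_ne := by
    change (D.n : L) ≠ 0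
    rw [← map_natCast φ]
    exact (map_ne_zero φ).2 hD.n_ne
  j_zero := by
    rcases hD.j_zero with h | h
    · left
      change (D.j : L) = 0
      rw [← map_natCast φ, h, map_zero]
    · right
      change MvPolynomial.map φ D.P = 0
      rw [h, map_zero]
  sep s := by
    rw [D.map_b]
    exact (hD.sep s).map
  deg s := by
    rw [D.map_b, Polynomial.natDegree_map]
    exact hD.deg s
  fac s := by
    obtain ⟨g, h1, h2, h3⟩ := hD.fac s
    refine ⟨g.map φ, ?_, ?_, ?_⟩
    · rwa [Polynomial.isUnit_map]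
    · rw [D.map_a]
      exact Polynomial.map_dvd φ h2
    · rw [D.map_b]
      exact Polynomial.map_dvd φ h3

/-- The map between the curves induced by a ring homomorphism. -/
lemma Dat.rel_J {R R' : Type} [CommRing R] [CommRing R'] (φ : R →+* R') (D : Dat R) :
    V.Rel φ D.J (D.map φ).J := by
  apply rel_ofSet
  rintro f rfl
  exact D.map_form φ

lemma Dat.le_map_J {R R' : Type} [CommRing R] [CommRing R'] (φ : R →+* R') (D : Dat R) :
    (D.map φ).J.toIdeal ≤ D.J.toIdeal.map (MvPolynomial.map φ) := by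
  apply le_map_ofSet
  rintro f rfl
  exact ⟨D.form, rfl, D.map_form φ⟩

variable {K : Type} [Field K] (D : Dat K) (hD : D.Good)

lemma Dat.frac_ne_zero (s t : Fin 2) (hA : IsDomain (D.A s)) : frac D.J s.succ t.succ ≠ 0 := by
  intro h
  have h1 := congrArg (D.chEquiv s) h
  rcases eq_or_rev s t with rfl | rfl
  · rw [frac_self, map_one, map_zero] at h1
    exact one_ne_zero h1
  · rw [D.chEquiv_x, map_zero] at h1
    exact x_ne_zero D s h1

include hD

lemma Dat.Good.isDomain_Ch (s : Fin 2) : IsDomain (Ch D.J s.succ) := by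
  have hd := Dat.Good.isDomain_A D hD s
  exact (D.chEquiv s).toMulEquiv.isDomain _

lemma Dat.Good.isIntegral_curve : IsIntegral (V D.J) := by
  have hd := Dat.Good.isDomain_Ch D hD 0
  let x0 : Spec (.of (Ch D.J (0 : Fin 2).succ)) := (⟨⊥, Ideal.isPrime_bot⟩ : PrimeSpectrum _)
  refine V.isIntegral_of_charts D.J (ι := Fin 2) Fin.succ (fun x => D.exists_chart x)
    (Dat.Good.isDomain_Ch D hD) (V.chart D.J (0 : Fin 2).succ x0) (fun t => ?_)
  rw [V.chart_mem_D]
  intro h
  exact D.frac_ne_zero 0 t (Dat.Good.isDomain_A D hD 0) ((Submodule.mem_bot _).1 h)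

lemma Dat.Good.geometricallyIntegral_curve : GeometricallyIntegral (V.str D.J) := by
  refine ⟨?_⟩
  intro L _ y Z fst snd h
  obtain ⟨φ, rfl⟩ := Spec.map_surjective y
  have h3 := V.isPullback_map φ.hom D.J (D.map φ.hom).J (D.rel_J φ.hom) (D.le_map_J φ.hom)
  have h4 := Dat.Good.isIntegral_curve (D.map φ.hom) (hD.map φ.hom)
  have e : Z ≅ V (D.map φ.hom).J := h.isoIsPullback _ _ h3
  have h5 : Nonempty (V (D.map φ.hom).J) := inferInstance
  have h6 : Nonempty Z := h5.map e.inv
  exact isIntegral_of_isOpenImmersion e.hom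

end integral

section proper

variable {R : Type} [CommRing R] (D : Dat R)

lemma Dat.isProper_curve : IsProper (V.str D.J) := by
  have h0 : IsScalarTower R (qgrad D.J.toIdeal 0) (MvPolynomial (Fin 3) R ⧸ D.J.toIdeal) :=
    IsScalarTower.of_algebraMap_eq (R := R) (S := qgrad D.J.toIdeal 0)
      (A := MvPolynomial (Fin 3) R ⧸ D.J.toIdeal) (fun r => by rfl)
  have h1 : Algebra.FiniteType (qgrad D.J.toIdeal 0) (MvPolynomial (Fin 3) R ⧸ D.J.toIdeal) :=
    Algebra.FiniteType.of_restrictScalars_finiteType R _ _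
  have h2 : IsProper (Proj.toSpecZero (qgrad D.J.toIdeal)) := inferInstance
  have h3 : IsClosedImmersion
      (Spec.map (CommRingCat.ofHom (algebraMap R (qgrad D.J.toIdeal 0)))) :=
    IsClosedImmersion.spec_of_surjective _ (Pool.Agent.H666R3.NG.Fermat.surj_zero R D.J)
  have h4 : IsProper
      (Spec.map (CommRingCat.ofHom (algebraMap R (qgrad D.J.toIdeal 0)))) := inferInstance
  exact MorphismProperty.comp_mem @IsProper _ _ h2 h4

end proper

section points

/-- The curve has no point over the field `K` if the form has no nontrivial zero in `K`. -/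
lemma Dat.no_section {k : Type} [Field k] (D : Dat k) {K : Type} [Field K] [Algebra k K]
    (hk : ∀ (s : Fin 2) (a b : K), D.val s a b ≠ 0)
    (σ : Spec (.of K) ⟶ V D.J)
    (hσ : σ ≫ V.str D.J = Spec.map (CommRingCat.ofHom (algebraMap k K))) : False := by
  let x : Spec (.of K) := IsLocalRing.closedPoint K
  obtain ⟨s, hc⟩ := D.exists_chart (σ x)
  have hr : Set.range σ ⊆ Set.range (V.chart D.J s.succ) := by
    rintro _ ⟨z, rfl⟩
    have : z = x := Subsingleton.elim _ _
    rw [this]
    exact (V.mem_range_chart D.J s.succ _).2 hc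
  let g : Spec (.of K) ⟶ Spec (.of (Ch D.J s.succ)) := IsOpenImmersion.lift (V.chart D.J s.succ) σ hr
  have hg : g ≫ V.chart D.J s.succ = σ := IsOpenImmersion.lift_fac _ _ _
  obtain ⟨φ, hφ⟩ := Spec.map_surjective g
  have hcomp : φ.hom.comp (algebraMap k (Ch D.J s.succ)) = algebraMap k K := by
    have h1 : g ≫ (V.chart D.J s.succ ≫ V.str D.J) =
        Spec.map (CommRingCat.ofHom (algebraMap k K)) := by
      rw [← Category.assoc, hg, hσ]
    rw [V.chart_str, ← hφ, ← Spec.map_comp] at h1
    have h2 := Spec.map_injective h1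
    exact congrArg CommRingCat.Hom.hom h2
  let ψ : Ch D.J s.succ →ₐ[k] K := { φ.hom with commutes' := fun r => congrArg (fun f => f r) hcomp }
  have h1 := congrArg ψ (D.frac_rel s)
  unfold Dat.val at h1
  rw [map_add, map_add, map_mul, map_pow, map_pow, map_zero, MvPolynomial.comp_aeval_apply,
    MvPolynomial.comp_aeval_apply] at h1
  have h2 : (fun i => ψ (w s (frac D.J s.succ s.rev.succ) i)) = w s (ψ (frac D.J s.succ s.rev.succ)) := by
    funext i
    unfold w
    split_ifs
    · exact map_one _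
    · rfl
  rw [h2] at h1
  exact hk s _ _ h1

end points

end Pool.Agent.Y939.NG
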