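import Pool.Agent.Y939.NG.Curve
import Pool.Agent.H666R3.NG.Genus

/-!
# The genus of the plane curves
-/

set_option autoImplicit false

open MvPolynomial AlgebraicGeometry CategoryTheory Limits TopologicalSpace HomogeneousLocalization

namespace Pool.Agent.Y939.NG

open Pool.Agent.Helper198.Sch
open Pool.Agent.H666R3.NG (HasGenus CechDim CokerDim fnHom)
open Pool.Agent.H666R3.NG.Fermat (pstr awAlg fnHom_basicOpen awayToSection_bijective range_res
  isLoc_transfer)

attribute [local instance] MvPolynomial.gradedAlgebra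

variable {K : Type} [Field K] (D : Dat K)

/-- the grading -/
noncomputable abbrev gr : ℕ → Submodule K (MvPolynomial (Fin 3) K ⧸ D.J.toIdeal) :=
  qgrad D.J.toIdeal

/-- the first chart -/
abbrev c1 : Fin 3 := Fin.succ (0 : Fin 2)
/-- the second chart -/
abbrev c2 : Fin 3 := Fin.succ (1 : Fin 2)

/-- `X₁ X₂`. -/
noncomputable def s12 : MvPolynomial (Fin 3) K ⧸ D.J.toIdeal := gen D.J c1 * gen D.J c2

lemma s12_eq : s12 D = gen D.J c2 * gen D.J c1 := mul_comm _ _

lemma s12_mem : s12 D ∈ gr D (1 + 1) := SetLike.mul_mem_graded (gen_mem _ _) (gen_mem _ _)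

/-- the intersection of the two charts. -/
noncomputable abbrev W12 : (Proj (gr D)).Opens := Proj.basicOpen (gr D) (s12 D)

/-- the map from the ring of the first chart -/
noncomputable def ψ1 : Ch D.J c1 →+* Γ(Proj (gr D), W12 D) :=
  (Proj.awayToSection (gr D) (s12 D)).hom.comp (awayMap (gr D) (gen_mem D.J c2) rfl)

/-- the map from the ring of the second chart -/
noncomputable def ψ2 : Ch D.J c2 →+* Γ(Proj (gr D), W12 D) :=
  (Proj.awayToSection (gr D) (s12 D)).hom.comp (awayMap (gr D) (gen_mem D.J c1) (s12_eq D))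

lemma ψ1_alg (r : K) : ψ1 D (algebraMap K _ r) = fnHom (pstr (gr D)) (W12 D) r := by
  rw [fnHom_basicOpen (gr D) (by norm_num) (s12 D) (s12_mem D)]
  change (Proj.awayToSection (gr D) (s12 D)).hom (awayMap (gr D) (gen_mem D.J c2) rfl
    (fromZeroRingHom _ _ _)) = _
  rw [awayMap_fromZeroRingHom]
  rfl

lemma ψ2_alg (r : K) : ψ2 D (algebraMap K _ r) = fnHom (pstr (gr D)) (W12 D) r := by
  rw [fnHom_basicOpen (gr D) (by norm_num) (s12 D) (s12_mem D)]
  change (Proj.awayToSection (gr D) (s12 D)).hom (awayMap (gr D) (gen_mem D.J c1) (s12_eq D)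
    (fromZeroRingHom _ _ _)) = _
  rw [awayMap_fromZeroRingHom]
  rfl

lemma awayMap_frac {f g x : MvPolynomial (Fin 3) K ⧸ D.J.toIdeal} {m : ℕ}
    (c a : Fin 3) (hf : f = gen D.J c) (hg : g ∈ gr D m) (hx : x = f * g) :
    algebraMap _ (Localization.Away x) (gen D.J c) *
      (awayMap (gr D) hg hx (hf ▸ frac D.J c a : Away (gr D) f)).val =
    algebraMap _ (Localization.Away x) (gen D.J a) := by
  subst hf
  rw [val_awayMap]
  have h := chVal_frac D.J c a
  have h2 : (frac D.J c a : Away (gr D) (gen D.J c)).val = chVal D.J c (frac D.J c a) := rfl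
  change _ * Localization.awayLift _ _ _ (frac D.J c a : Away (gr D) (gen D.J c)).val = _
  rw [h2]
  have h3 := congrArg (Localization.awayLift (algebraMap _ (Localization.Away x)) _
    (isUnit_of_dvd_unit (map_dvd _ ⟨_, hx⟩) (IsLocalization.Away.algebraMap_isUnit x))) h
  rw [map_mul] at h3
  have h4 : ∀ z, Localization.awayLift (algebraMap _ (Localization.Away x)) _
    (isUnit_of_dvd_unit (map_dvd _ ⟨_, hx⟩) (IsLocalization.Away.algebraMap_isUnit x))
    (algebraMap (MvPolynomial (Fin 3) K ⧸ D.J.toIdeal) (Localization.Away (gen D.J c)) z) =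
      algebraMap _ (Localization.Away x) z := by
    intro z
    exact IsLocalization.Away.lift_eq _ _ _
  rw [h4, h4] at h3
  exact h3

lemma rel_away :
    awayMap (gr D) (gen_mem D.J c1) (s12_eq D) (frac D.J c2 c1) *
      awayMap (gr D) (gen_mem D.J c2) (rfl : s12 D = _) (frac D.J c1 c2) = 1 ∧
    awayMap (gr D) (gen_mem D.J c2) (rfl : s12 D = _) (frac D.J c1 0) =
      awayMap (gr D) (gen_mem D.J c1) (s12_eq D) (frac D.J c2 0) *
        awayMap (gr D) (gen_mem D.J c2) (rfl : s12 D = _) (frac D.J c1 c2) := by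
  have h21 := awayMap_frac D (x := s12 D) c2 c1 rfl (gen_mem D.J c1) (s12_eq D)
  have h20 := awayMap_frac D (x := s12 D) c2 0 rfl (gen_mem D.J c1) (s12_eq D)
  have h12 := awayMap_frac D (x := s12 D) c1 c2 rfl (gen_mem D.J c2) rfl
  have h10 := awayMap_frac D (x := s12 D) c1 0 rfl (gen_mem D.J c2) rfl
  have hu : IsUnit (algebraMap (MvPolynomial (Fin 3) K ⧸ D.J.toIdeal)
      (Localization.Away (s12 D)) (s12 D)) := IsLocalization.Away.algebraMap_isUnit _
  have hu1 : IsUnit (algebraMap (MvPolynomial (Fin 3) K ⧸ D.J.toIdeal)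
      (Localization.Away (s12 D)) (gen D.J c1)) :=
    isUnit_of_dvd_unit (map_dvd _ ⟨_, rfl⟩) hu
  have hu2 : IsUnit (algebraMap (MvPolynomial (Fin 3) K ⧸ D.J.toIdeal)
      (Localization.Away (s12 D)) (gen D.J c2)) :=
    isUnit_of_dvd_unit (map_dvd _ ⟨_, s12_eq D⟩) hu
  constructor
  · apply HomogeneousLocalization.val_injective
    rw [val_mul, val_one]
    apply hu2.mul_left_cancel
    rw [← mul_assoc]
    refine (congrArg (· * _) h21).trans ?_
    rw [mul_one]
    exact h12
  · apply HomogeneousLocalization.val_injective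
    rw [val_mul]
    apply hu1.mul_left_cancel
    refine h10.trans ?_
    rw [← h20, mul_comm (val _) (val _), ← mul_assoc]
    exact congrArg (· * _) h12.symm

lemma rel_ψ : ψ2 D (frac D.J c2 c1) * ψ1 D (frac D.J c1 c2) = 1 ∧
    ψ1 D (frac D.J c1 0) = ψ2 D (frac D.J c2 0) * ψ1 D (frac D.J c1 c2) := by
  have h := rel_away D
  constructor
  · refine (map_mul (Proj.awayToSection (gr D) (s12 D)).hom _ _).symm.trans ?_
    refine (congrArg _ h.1).trans ?_
    exact map_one _
  · refine (congrArg (Proj.awayToSection (gr D) (s12 D)).hom h.2).trans ?_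
    exact map_mul _ _ _

set_option synthInstance.maxHeartbeats 400000 in
lemma cechDim_W :
    CechDim (pstr (gr D)) (Proj.basicOpen (gr D) (gen D.J c1)) (Proj.basicOpen (gr D) (gen D.J c2))
      (W12 D) (Proj.basicOpen_mono _ _ _ ⟨_, rfl⟩) (Proj.basicOpen_mono _ _ _ ⟨_, s12_eq D⟩)
      ((D.n - 1).choose 2) := by
  unfold CechDim CokerDim
  letI i0 : Algebra K Γ(Proj (gr D), W12 D) := (fnHom (pstr (gr D)) (W12 D)).toAlgebra
  let r1 : Ch D.J c1 →ₐ[K] Γ(Proj (gr D), W12 D) := { ψ1 D with commutes' := ψ1_alg D }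
  let r2 : Ch D.J c2 →ₐ[K] Γ(Proj (gr D), W12 D) := { ψ2 D with commutes' := ψ2_alg D }
  let q1 : D.A 0 →ₐ[K] Γ(Proj (gr D), W12 D) := r1.comp (D.chEquiv 0).symm.toAlgHom
  let q2 : D.A 1 →ₐ[K] Γ(Proj (gr D), W12 D) := r2.comp (D.chEquiv 1).symm.toAlgHom
  letI i2 : Algebra (D.A 1) Γ(Proj (gr D), W12 D) := q2.toRingHom.toAlgebra
  have hst : IsScalarTower K (D.A 1) Γ(Proj (gr D), W12 D) :=
    IsScalarTower.of_algebraMap_eq (fun r => (q2.commutes r).symm)
  have e1y : (D.chEquiv 0).symm (D.y 0) = frac D.J c1 0 := by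
    rw [AlgEquiv.symm_apply_eq]
    exact (D.chEquiv_y 0).symm
  have e1x : (D.chEquiv 0).symm (D.x 0) = frac D.J c1 c2 := by
    rw [AlgEquiv.symm_apply_eq]
    exact (D.chEquiv_x 0).symm
  have e2y : (D.chEquiv 1).symm (D.y 1) = frac D.J c2 0 := by
    rw [AlgEquiv.symm_apply_eq]
    exact (D.chEquiv_y 1).symm
  have e2x : (D.chEquiv 1).symm (D.x 1) = frac D.J c2 c1 := by
    rw [AlgEquiv.symm_apply_eq]
    exact (D.chEquiv_x 1).symm
  have q1x : q1 (D.x 0) = ψ1 D (frac D.J c1 c2) := congrArg (ψ1 D) e1x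
  have q1y : q1 (D.y 0) = ψ1 D (frac D.J c1 0) := congrArg (ψ1 D) e1y
  have q2x : q2 (D.x 1) = ψ2 D (frac D.J c2 c1) := congrArg (ψ2 D) e2x
  have q2y : q2 (D.y 1) = ψ2 D (frac D.J c2 0) := congrArg (ψ2 D) e2y
  have hrel := rel_ψ D
  let u : Γ(Proj (gr D), W12 D)ˣ :=
    ⟨ψ2 D (frac D.J c2 c1), ψ1 D (frac D.J c1 c2), hrel.1, (mul_comm _ _).trans hrel.1⟩
  have hloc : IsLocalization.Away (D.x 1) Γ(Proj (gr D), W12 D) := by
    have h1 := Away.isLocalization_mul (gen_mem D.J c2) (gen_mem D.J c1) (s12_eq D) one_ne_zero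
    rw [V.isLocalizationElem_eq] at h1
    have h2 := isLoc_transfer (awayMap (gr D) (gen_mem D.J c1) (s12_eq D)) q2.toRingHom
      (D.chEquiv 1).toRingEquiv
      (RingEquiv.ofBijective _ (awayToSection_bijective (gr D) (by norm_num) (s12 D) (s12_mem D)))
      (frac D.J c2 c1) (fun r => by
        change ψ2 D ((D.chEquiv 1).symm (D.chEquiv 1 r)) = _
        rw [AlgEquiv.symm_apply_apply]
        rfl) h1
    have h3 : (D.chEquiv 1).toRingEquiv (frac D.J c2 c1) = D.x 1 := D.chEquiv_x 1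
    exact Eq.mp (congrArg (fun z => IsLocalization.Away z Γ(Proj (gr D), W12 D)) h3) h2
  have key := cech (K := K) (B := Γ(Proj (gr D), W12 D)) u q2x.symm q1 q1x (by
    rw [q1y]
    exact hrel.2.trans (congrArg (· * _) q2y.symm))
  have hS : Submodule.span K
      (Set.range ((Proj (gr D)).presheaf.map (homOfLE (Proj.basicOpen_mono (gr D) _ _
        (⟨_, rfl⟩ : gen D.J c1 ∣ s12 D))).op) ∪
        Set.range ((Proj (gr D)).presheaf.map (homOfLE (Proj.basicOpen_mono (gr D) _ _
        (⟨_, s12_eq D⟩ : gen D.J c2 ∣ s12 D))).op)) =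
      LinearMap.range q1.toLinearMap ⊔
        LinearMap.range (IsScalarTower.toAlgHom K (D.A 1) Γ(Proj (gr D), W12 D)).toLinearMap := by
    rw [range_res (gr D) one_pos (gen D.J c1) (gen D.J c2) (s12 D) (gen_mem _ _) (gen_mem _ _) rfl,
      range_res (gr D) one_pos (gen D.J c2) (gen D.J c1) (s12 D) (gen_mem _ _) (gen_mem _ _)
        (s12_eq D), Submodule.span_union]
    congr 1
    · have : (Set.range ((Proj.awayToSection (gr D) (s12 D)).hom.comp
          (awayMap (gr D) (gen_mem D.J c2) (rfl : s12 D = _)))) =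
          ((LinearMap.range q1.toLinearMap : Submodule K _) : Set _) := by
        ext z
        constructor
        · rintro ⟨a, rfl⟩
          exact ⟨D.chEquiv 0 a, congrArg (ψ1 D) ((D.chEquiv 0).symm_apply_apply a)⟩
        · rintro ⟨a, rfl⟩
          exact ⟨(D.chEquiv 0).symm a, rfl⟩
      rw [this, Submodule.span_eq]
    · have : (Set.range ((Proj.awayToSection (gr D) (s12 D)).hom.comp
          (awayMap (gr D) (gen_mem D.J c1) (s12_eq D)))) =
          ((LinearMap.range (IsScalarTower.toAlgHom K (D.A 1)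
            Γ(Proj (gr D), W12 D)).toLinearMap : Submodule K _) : Set _) := by
        ext z
        constructor
        · rintro ⟨a, rfl⟩
          exact ⟨D.chEquiv 1 a, congrArg (ψ2 D) ((D.chEquiv 1).symm_apply_apply a)⟩
        · rintro ⟨a, rfl⟩
          exact ⟨(D.chEquiv 1).symm a, rfl⟩
      rw [this, Submodule.span_eq]
  rw [hS]
  exact key

lemma W12_eq : W12 D =
    Proj.basicOpen (gr D) (gen D.J c1) ⊓ Proj.basicOpen (gr D) (gen D.J c2) :=
  Proj.basicOpen_mul _ _ _

lemma cover12 :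
    Proj.basicOpen (gr D) (gen D.J c1) ⊔ Proj.basicOpen (gr D) (gen D.J c2) = ⊤ := by
  rw [eq_top_iff]
  intro x _
  obtain ⟨s, hs⟩ := D.exists_chart x
  have h : ∀ s : Fin 2, s = 0 ∨ s = 1 := by decide
  rcases h s with rfl | rfl
  · exact Or.inl hs
  · exact Or.inr hs

/-- The curve has genus `(n - 1)(n - 2)/2`. -/
theorem Dat.hasGenus_curve : HasGenus (V.str D.J) ((D.n - 1).choose 2) := by
  have h : ∀ (W : (Proj (gr D)).Opens) (hU : W ≤ Proj.basicOpen (gr D) (gen D.J c1))
      (hV : W ≤ Proj.basicOpen (gr D) (gen D.J c2)), W = W12 D →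
      CechDim (pstr (gr D)) (Proj.basicOpen (gr D) (gen D.J c1))
        (Proj.basicOpen (gr D) (gen D.J c2)) W hU hV ((D.n - 1).choose 2) := by
    rintro W hU hV rfl
    exact cechDim_W D
  have h1 : HasGenus (pstr (gr D)) ((D.n - 1).choose 2) := by
    refine ⟨Proj.basicOpen (gr D) (gen D.J c1), Proj.basicOpen (gr D) (gen D.J c2),
      Proj.isAffineOpen_basicOpen _ _ (gen_mem _ _) one_pos,
      Proj.isAffineOpen_basicOpen _ _ (gen_mem _ _) one_pos, ?_, cover12 D,
      h _ _ _ (W12_eq D).symm⟩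
    rw [← W12_eq]
    exact Proj.isAffineOpen_basicOpen _ _ (s12_mem D) (by norm_num)
  exact h1

end Pool.Agent.Y939.NG
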