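import Pool.Agent.H666R3.NG.Ring

/-!
# Plane curves `Y ^ n + Y ^ j P(X, Z) + Q(X, Z) = 0`: the rings of the two charts
-/

set_option autoImplicit false

open Polynomial

namespace Pool.Agent.Y939.NG

/-- The data of a form `Y ^ n + Y ^ j P(X, Z) + Q(X, Z)` of degree `n`. -/
structure Dat (R : Type) [CommRing R] where
  n : ℕ
  j : ℕ
  P : MvPolynomial (Fin 2) R
  Q : MvPolynomial (Fin 2) R
  hj : j < n
  j_pos : 0 < j
  hP : P.IsHomogeneous (n - j)
  hQ : Q.IsHomogeneous n

/-- the point with coordinate `1` at `s` and `c` at the other place -/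
def w {E : Type*} [One E] (s : Fin 2) (c : E) : Fin 2 → E := fun i => if i = s then 1 else c

lemma aeval_w {R E : Type*} [CommRing R] [CommRing E] [Algebra R E] (s : Fin 2) (c : E)
    (P : MvPolynomial (Fin 2) R) :
    Polynomial.aeval c (MvPolynomial.aeval (w s (X : R[X])) P) = MvPolynomial.aeval (w s c) P := by
  rw [MvPolynomial.comp_aeval_apply]
  congr 2
  funext i
  unfold w
  split_ifs <;> simp

lemma natDegree_aeval_w {R : Type*} [CommRing R] (s : Fin 2) {d : ℕ}
    {P : MvPolynomial (Fin 2) R} (hP : P.IsHomogeneous d) :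
    (MvPolynomial.aeval (w s (X : R[X])) P).natDegree ≤ d := by
  rw [P.as_sum, map_sum]
  apply Polynomial.natDegree_sum_le_of_forall_le
  intro m hm
  rw [MvPolynomial.aeval_monomial]
  have h1 : m.degree = d := hP.degree_eq_sum_deg_support hm ▸ rfl
  have h2 : m 0 + m 1 = d := by
    rw [← h1, Finsupp.degree_eq_sum]
    simp [Fin.sum_univ_two]
  rw [Finsupp.prod_fintype _ _ (by simp), Fin.prod_univ_two]
  refine (natDegree_C_mul_le _ _).trans ?_
  refine (natDegree_mul_le).trans ?_
  have h3 : ∀ i : Fin 2, ((w s (X : R[X]) i) ^ (m i)).natDegree ≤ m i := by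
    intro i
    unfold w
    split_ifs
    · simp
    · exact natDegree_X_pow_le _
  have := h3 0
  have := h3 1
  omega

section basic

variable {R : Type} [CommRing R] (D : Dat R) (s : Fin 2)

namespace Dat

/-- the dehomogenized form `P` -/
noncomputable def a : R[X] := MvPolynomial.aeval (w s (X : R[X])) D.P

/-- the dehomogenized form `Q` -/
noncomputable def b : R[X] := MvPolynomial.aeval (w s (X : R[X])) D.Q

/-- The polynomial `y ^ n + a(x) y ^ j + b(x)` in `R[x][y]`. -/
noncomputable def pol : R[X][X] := X ^ D.n + (C (D.a s) * X ^ D.j + C (D.b s))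

/-- The coordinate ring of the chart. -/
abbrev A : Type := AdjoinRoot (D.pol s)

/-- the coordinate function `y`. -/
noncomputable def y : D.A s := AdjoinRoot.root (D.pol s)

/-- the coordinate function `x`. -/
noncomputable def x : D.A s := AdjoinRoot.of (D.pol s) X

lemma n_pos : 0 < D.n := lt_of_le_of_lt (Nat.zero_le _) D.hj

lemma degree_lt : (C (D.a s) * X ^ D.j + C (D.b s) : R[X][X]).degree < D.n := by
  refine (degree_add_le _ _).trans_lt (max_lt ?_ ?_)
  · refine (degree_C_mul_X_pow_le _ _).trans_lt ?_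
    exact_mod_cast D.hj
  · refine degree_C_le.trans_lt ?_
    exact_mod_cast D.n_pos

lemma pol_monic : (D.pol s).Monic := monic_X_pow_add (D.degree_lt s)

lemma natDegree_pol [Nontrivial R] : (D.pol s).natDegree = D.n := by
  unfold pol
  rw [natDegree_add_eq_left_of_degree_lt, natDegree_X_pow]
  rw [degree_X_pow]
  exact D.degree_lt s

lemma eval_pol {E : Type*} [CommRing E] (g : R[X] →+* E) (c : E) :
    (D.pol s).eval₂ g c = c ^ D.n + (g (D.a s) * c ^ D.j + g (D.b s)) := by
  rw [pol, eval₂_add, eval₂_add, eval₂_pow, eval₂_X, eval₂_mul, eval₂_C, eval₂_C, eval₂_pow, eval₂_X]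

lemma aeval_a {E : Type*} [CommRing E] [Algebra R E] (c : E) :
    Polynomial.aeval c (D.a s) = MvPolynomial.aeval (w s c) D.P := aeval_w s c D.P

lemma aeval_b {E : Type*} [CommRing E] [Algebra R E] (c : E) :
    Polynomial.aeval c (D.b s) = MvPolynomial.aeval (w s c) D.Q := aeval_w s c D.Q

lemma of_eq (p : R[X]) : AdjoinRoot.of (D.pol s) p = Polynomial.aeval (D.x s) p := by
  have h : (IsScalarTower.toAlgHom R R[X] (D.A s)) = Polynomial.aeval (D.x s) := by
    apply Polynomial.algHom_ext
    rw [aeval_X]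
    rfl
  exact congrArg (fun f => f p) h

/-- the value of the dehomogenized form -/
noncomputable def val {E : Type*} [CommRing E] [Algebra R E] (a b : E) : E :=
  b ^ D.n + (MvPolynomial.aeval (w s a) D.P * b ^ D.j + MvPolynomial.aeval (w s a) D.Q)

lemma rel : D.val s (D.x s) (D.y s) = 0 := by
  have h := AdjoinRoot.eval₂_root (D.pol s)
  rw [eval_pol, of_eq, of_eq, aeval_a, aeval_b] at h
  exact h

/-- universal property. -/
noncomputable def lift {E : Type*} [CommRing E] [Algebra R E] (a b : E) (h : D.val s a b = 0) :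
    D.A s →ₐ[R] E :=
  AdjoinRoot.liftAlgHom (D.pol s) (Polynomial.aeval a) b (by
    rw [eval_pol]
    change _ + (Polynomial.aeval a _ * _ + Polynomial.aeval a _) = 0
    rw [aeval_a, aeval_b]
    exact h)

@[simp] lemma lift_y {E : Type*} [CommRing E] [Algebra R E] (a b : E) (h : D.val s a b = 0) :
    D.lift s a b h (D.y s) = b := by
  simp [lift, y]

@[simp] lemma lift_x {E : Type*} [CommRing E] [Algebra R E] (a b : E) (h : D.val s a b = 0) :
    D.lift s a b h (D.x s) = a := by
  simp [lift, x]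

end Dat

lemma adjoin_ext {F : R[X][X]} {E : Type*} [CommRing E] [Algebra R E] {f g : AdjoinRoot F →ₐ[R] E}
    (h1 : f (AdjoinRoot.of F X) = g (AdjoinRoot.of F X))
    (h2 : f (AdjoinRoot.root F) = g (AdjoinRoot.root F)) : f = g := by
  apply AlgHom.ext
  have h3 : ∀ a : R[X], f (AdjoinRoot.of F a) = g (AdjoinRoot.of F a) := by
    intro a
    induction a using Polynomial.induction_on' with
    | add p q hp hq => simp only [map_add, hp, hq]
    | monomial m r =>
      have e : AdjoinRoot.of F (monomial m r) =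
          algebraMap R (AdjoinRoot F) r * (AdjoinRoot.of F X) ^ m := by
        rw [← C_mul_X_pow_eq_monomial, map_mul, map_pow]
        rfl
      rw [e, map_mul, map_mul, map_pow, map_pow, h1, AlgHom.commutes, AlgHom.commutes]
  intro z
  obtain ⟨p, rfl⟩ := AdjoinRoot.mk_surjective z
  induction p using Polynomial.induction_on' with
  | add p q hp hq => simp only [map_add, hp, hq]
  | monomial n a =>
    have e : AdjoinRoot.mk F (monomial n a) = AdjoinRoot.of F a * (AdjoinRoot.root F) ^ n := by
      rw [← C_mul_X_pow_eq_monomial, map_mul, map_pow, AdjoinRoot.mk_X, AdjoinRoot.mk_C]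
    rw [e, map_mul, map_mul, map_pow, map_pow, h2, h3]

lemma Dat.ext_A {E : Type*} [CommRing E] [Algebra R E] {f g : D.A s →ₐ[R] E}
    (h1 : f (D.x s) = g (D.x s)) (h2 : f (D.y s) = g (D.y s)) : f = g :=
  adjoin_ext h1 h2

end basic

/-- The conditions for a smooth and geometrically integral curve. -/
structure Dat.Good {K : Type} [Field K] (D : Dat K) : Prop where
  n_ne : (D.n : K) ≠ 0
  j_zero : (D.j : K) = 0 ∨ D.P = 0
  sep : ∀ s, (D.b s).Separable
  deg : ∀ s, (D.b s).natDegree = D.n
  fac : ∀ s, ∃ g : K[X], ¬ IsUnit g ∧ g ∣ D.a s ∧ g ∣ D.b s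

section domain

variable {K : Type} [Field K] (D : Dat K) (hD : D.Good) (s : Fin 2)

include hD

lemma Dat.Good.pol_irreducible : Irreducible (D.pol s) := by
  obtain ⟨g, hg, hga, hgb⟩ := hD.fac s
  have hb0 : D.b s ≠ 0 := (hD.sep s).ne_zero
  have hg0 : g ≠ 0 := by
    rintro rfl
    exact hb0 (zero_dvd_iff.1 hgb)
  obtain ⟨p, hp, hpd⟩ := WfDvdMonoid.exists_irreducible_factor hg hg0
  have hpp : (Ideal.span {p} : Ideal K[X]).IsPrime := by
    rw [Ideal.span_singleton_prime hp.ne_zero]
    exact hp.prime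
  have hnd : (D.pol s).natDegree = D.n := D.natDegree_pol s
  apply Polynomial.irreducible_of_eisenstein_criterion hpp
  · rw [(D.pol_monic s).leadingCoeff]
    intro h
    exact hpp.ne_top ((Ideal.eq_top_iff_one _).2 h)
  · intro m hm
    rw [degree_eq_natDegree (D.pol_monic s).ne_zero, hnd] at hm
    have hm' : m < D.n := by exact_mod_cast hm
    unfold Dat.pol
    rw [coeff_add, coeff_X_pow, if_neg (by omega), zero_add, coeff_add, coeff_C_mul, coeff_C]
    apply Ideal.add_mem
    · exact Ideal.mul_mem_right _ _ (Ideal.mem_span_singleton.2 (hpd.trans hga))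
    · split_ifs
      · exact Ideal.mem_span_singleton.2 (hpd.trans hgb)
      · exact Ideal.zero_mem _
  · rw [degree_eq_natDegree (D.pol_monic s).ne_zero, hnd]
    exact_mod_cast D.n_pos
  · have hn := D.n_pos
    have hj := D.j_pos
    unfold Dat.pol
    rw [coeff_add, coeff_X_pow, if_neg (by omega), zero_add, coeff_add, coeff_C_mul, coeff_X_pow,
      if_neg (by omega), mul_zero, zero_add, coeff_C_zero]
    rw [Ideal.span_singleton_pow, Ideal.mem_span_singleton]
    intro h
    have hsq := (hD.sep s).squarefree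
    rw [sq] at h
    exact hp.not_isUnit (hsq p h)
  · exact (D.pol_monic s).isPrimitive

lemma Dat.Good.isDomain_A : IsDomain (D.A s) :=
  AdjoinRoot.isDomain_of_prime (Dat.Good.pol_irreducible D hD s).prime

end domain

section smooth

variable (K : Type) [Field K]

/-- The standard etale pair of a monic polynomial and its derivative. -/
noncomputable def etPair (f : K[X][X]) (hf : f.Monic) : StandardEtalePair K[X] where
  f := f
  monic_f := hf
  g := derivative f
  cond := ⟨1, 0, 1, by ring⟩

lemma smooth_der (f : K[X][X]) (hf : f.Monic) :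
    Algebra.IsStandardSmoothOfRelativeDimension 1 K
      (Localization.Away (AdjoinRoot.mk f (derivative f))) := by
  have h1 : Algebra.Etale K[X] (etPair K f hf).Ring := inferInstance
  have h3 : Algebra.Etale K[X] (Localization.Away (AdjoinRoot.mk f (derivative f))) :=
    Algebra.Etale.of_equiv (etPair K f hf).equivAwayAdjoinRoot
  have h4 : Algebra.IsStandardSmoothOfRelativeDimension 0 K[X]
      (Localization.Away (AdjoinRoot.mk f (derivative f))) :=
    Algebra.Etale.iff_isStandardSmoothOfRelativeDimension_zero.1 h3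
  have h5 := Pool.Agent.H666R3.NG.Fermat.smooth_poly K
  exact Algebra.IsStandardSmoothOfRelativeDimension.trans 1 0 K K[X]
    (Localization.Away (AdjoinRoot.mk f (derivative f)))

variable {K}

lemma smooth_of_equiv (f : K[X][X]) (hf : f.Monic) {B : Type} [CommRing B] [Algebra K B]
    (e : B ≃ₐ[K] AdjoinRoot f) (t : B) (ht : e t = AdjoinRoot.mk f (derivative f)) :
    Algebra.IsStandardSmoothOfRelativeDimension 1 K (Localization.Away t) := by
  have h1 := smooth_der K f hf
  have H : Submonoid.map e.symm (Submonoid.powers (AdjoinRoot.mk f (derivative f))) =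
      Submonoid.powers t := by
    rw [Submonoid.map_powers, ← ht]
    simp
  exact Algebra.IsStandardSmoothOfRelativeDimension.of_algEquiv 1
    (IsLocalization.algEquivOfAlgEquiv
      (M := Submonoid.powers (AdjoinRoot.mk f (derivative f))) (T := Submonoid.powers t)
      (Localization.Away (AdjoinRoot.mk f (derivative f))) (Localization.Away t) e.symm H)

variable (D : Dat K) (s : Fin 2)

/-- the leading coefficient of `b` -/
noncomputable def Dat.beta : K := (D.b s).coeff D.n

/-- the polynomial `(b(x) + y ^ j a(x) + y ^ n) / beta` in `K[y][x]` -/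
noncomputable def Dat.sw : K[X][X] :=
  C (C (D.beta s)⁻¹) * ((D.b s).map C + (C (X ^ D.j) * (D.a s).map C + C (X ^ D.n)))

lemma eval_map_C {E : Type*} [CommRing E] [Algebra K E] (g : K[X] →ₐ[K] E)
    (p : K[X]) (c : E) : (p.map C).eval₂ (g : K[X] →+* E) c = Polynomial.aeval c p := by
  rw [eval₂_map, Polynomial.aeval_def]
  congr 1
  ext r
  change g (C r) = _
  exact g.commutes r

lemma Dat.natDegree_a_lt : (D.a s).natDegree < D.n := by
  have h1 : (D.a s).natDegree ≤ D.n - D.j := natDegree_aeval_w s D.hP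
  have h2 := D.j_pos
  have h3 := D.hj
  omega

lemma Dat.natDegree_b_le : (D.b s).natDegree ≤ D.n := natDegree_aeval_w s D.hQ

variable (hb : D.beta s ≠ 0)

include hb

lemma Dat.sw_monic : (D.sw s).Monic := by
  have hn := D.n_pos
  apply monic_of_natDegree_le_of_coeff_eq_one D.n
  · unfold Dat.sw
    refine (natDegree_C_mul_le _ _).trans ?_
    refine (natDegree_add_le _ _).trans (max_le ?_ ((natDegree_add_le _ _).trans (max_le ?_ ?_)))
    · exact natDegree_map_le.trans (D.natDegree_b_le s)
    · exact (natDegree_C_mul_le _ _).trans (natDegree_map_le.trans (D.natDegree_a_lt s).le)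
    · rw [natDegree_C]
      exact Nat.zero_le _
  · unfold Dat.sw
    rw [coeff_C_mul, coeff_add, coeff_map, coeff_add, coeff_C_mul, coeff_map, coeff_C,
      if_neg (by omega), coeff_eq_zero_of_natDegree_lt (D.natDegree_a_lt s), map_zero, mul_zero,
      add_zero, add_zero, ← C_mul]
    change C ((D.beta s)⁻¹ * D.beta s) = 1
    rw [inv_mul_cancel₀ hb, C_1]

/-- exchanging the roles of `x` and `y` -/
noncomputable def Dat.swTo : D.A s →ₐ[K] AdjoinRoot (D.sw s) :=
  D.lift s (AdjoinRoot.root (D.sw s)) (AdjoinRoot.of (D.sw s) X) (by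
    have h := AdjoinRoot.eval₂_root (D.sw s)
    let g : K[X] →ₐ[K] AdjoinRoot (D.sw s) := IsScalarTower.toAlgHom K K[X] _
    have hg : (AdjoinRoot.of (D.sw s)) = (g : K[X] →+* AdjoinRoot (D.sw s)) := rfl
    have h0 : Polynomial.eval₂ (AdjoinRoot.of (D.sw s)) (AdjoinRoot.root (D.sw s))
        (C (C (D.beta s)⁻¹) * ((D.b s).map C + (C (X ^ D.j) * (D.a s).map C + C (X ^ D.n)))) = 0 := h
    rw [eval₂_mul, eval₂_C, eval₂_add, eval₂_add, eval₂_mul, eval₂_C, eval₂_C] at h0
    rw [hg, eval_map_C g, eval_map_C g] at h0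
    have hu : IsUnit ((g : K[X] →+* AdjoinRoot (D.sw s)) (C (D.beta s)⁻¹)) := by
      refine IsUnit.map _ (IsUnit.map C ?_)
      exact isUnit_iff_ne_zero.2 (inv_ne_zero hb)
    have h' := (hu.mul_right_eq_zero).1 h0
    rw [D.aeval_a, D.aeval_b, map_pow, map_pow] at h'
    unfold Dat.val
    rw [hg]
    linear_combination h')

omit hb in
lemma Dat.eval_sw : (D.sw s).eval₂ (Polynomial.aeval (D.y s) : K[X] →ₐ[K] D.A s) (D.x s) = 0 := by
  unfold Dat.sw
  have h := D.rel s
  unfold Dat.val at h
  rw [eval₂_mul, eval₂_C, eval₂_add, eval₂_add, eval₂_mul, eval₂_C, eval₂_C,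
    eval_map_C (Polynomial.aeval (D.y s)), eval_map_C (Polynomial.aeval (D.y s)),
    D.aeval_a, D.aeval_b]
  change Polynomial.aeval (D.y s) _ * (_ + (Polynomial.aeval (D.y s) _ * _ +
    Polynomial.aeval (D.y s) _)) = 0
  rw [map_pow, map_pow, aeval_X]
  linear_combination (Polynomial.aeval (D.y s) (C (D.beta s)⁻¹)) * h

omit hb in
/-- exchanging the roles of `x` and `y` -/
noncomputable def Dat.swOf : AdjoinRoot (D.sw s) →ₐ[K] D.A s :=
  AdjoinRoot.liftAlgHom (D.sw s) (Polynomial.aeval (D.y s)) (D.x s) (D.eval_sw s)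

omit hb in
lemma Dat.swOf_X : D.swOf s (AdjoinRoot.of (D.sw s) X) = D.y s := by
  unfold Dat.swOf
  simp

omit hb in
lemma Dat.swOf_root : D.swOf s (AdjoinRoot.root (D.sw s)) = D.x s := by
  unfold Dat.swOf
  simp

lemma Dat.swTo_x : D.swTo s hb (D.x s) = AdjoinRoot.root (D.sw s) := D.lift_x s _ _ _

lemma Dat.swTo_y : D.swTo s hb (D.y s) = AdjoinRoot.of (D.sw s) X := D.lift_y s _ _ _

/-- exchanging the roles of `x` and `y` -/
noncomputable def Dat.swEquiv : D.A s ≃ₐ[K] AdjoinRoot (D.sw s) :=
  AlgEquiv.ofAlgHom (D.swTo s hb) (D.swOf s)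
    (by
      apply adjoin_ext
      · rw [AlgHom.comp_apply, AlgHom.id_apply, D.swOf_X, D.swTo_y]
      · rw [AlgHom.comp_apply, AlgHom.id_apply, D.swOf_root, D.swTo_x])
    (by
      apply D.ext_A
      · rw [AlgHom.comp_apply, AlgHom.id_apply, D.swTo_x, D.swOf_root]
      · rw [AlgHom.comp_apply, AlgHom.id_apply, D.swTo_y, D.swOf_X])

omit hb in
/-- the partial derivative with respect to `x`, divided by `beta` -/
noncomputable def Dat.tx : D.A s :=
  algebraMap K (D.A s) (D.beta s)⁻¹ * (Polynomial.aeval (D.x s) (derivative (D.b s)) +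
    D.y s ^ D.j * Polynomial.aeval (D.x s) (derivative (D.a s)))

omit hb in
/-- the partial derivative with respect to `y` -/
noncomputable def Dat.ty : D.A s := AdjoinRoot.mk (D.pol s) (derivative (D.pol s))

lemma Dat.swEquiv_tx : D.swEquiv s hb (D.tx s) = AdjoinRoot.mk (D.sw s) (derivative (D.sw s)) := by
  have h1 : derivative (D.sw s) = C (C (D.beta s)⁻¹) * ((derivative (D.b s)).map C +
      C (X ^ D.j) * (derivative (D.a s)).map C) := by
    unfold Dat.sw
    rw [derivative_C_mul, derivative_add, derivative_add, derivative_C_mul, derivative_C, add_zero,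
      derivative_map, derivative_map]
  have h2 : ∀ p : K[X], AdjoinRoot.mk (D.sw s) (p.map C) =
      Polynomial.aeval (AdjoinRoot.root (D.sw s)) p := by
    intro p
    rw [← AdjoinRoot.aeval_eq, Polynomial.aeval_def, AdjoinRoot.algebraMap_eq]
    exact eval_map_C (IsScalarTower.toAlgHom K K[X] (AdjoinRoot (D.sw s))) p _
  rw [h1, map_mul, map_add, map_mul, h2, h2, AdjoinRoot.mk_C, AdjoinRoot.mk_C]
  unfold Dat.tx
  rw [map_mul, map_add, map_mul, map_pow, AlgEquiv.commutes]
  have e1 : D.swEquiv s hb (D.y s) = AdjoinRoot.of (D.sw s) X := D.swTo_y s hb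
  have e2 : D.swEquiv s hb (D.x s) = AdjoinRoot.root (D.sw s) := D.swTo_x s hb
  rw [e1, ← Polynomial.aeval_algHom_apply, ← Polynomial.aeval_algHom_apply, e2, map_pow]
  rfl

lemma Dat.smooth_tx {B : Type} [CommRing B] [Algebra K B] (e : B ≃ₐ[K] D.A s) (t : B)
    (ht : e t = D.tx s) : Algebra.IsStandardSmoothOfRelativeDimension 1 K (Localization.Away t) := by
  apply smooth_of_equiv (D.sw s) (D.sw_monic s hb) (e.trans (D.swEquiv s hb)) t
  rw [AlgEquiv.trans_apply, ht, D.swEquiv_tx]

omit hb in
lemma Dat.smooth_ty {B : Type} [CommRing B] [Algebra K B] (e : B ≃ₐ[K] D.A s) (t : B)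
    (ht : e t = D.ty s) : Algebra.IsStandardSmoothOfRelativeDimension 1 K (Localization.Away t) :=
  smooth_of_equiv (D.pol s) (D.pol_monic s) e t ht

omit hb in
lemma Dat.Good.beta_ne (hD : D.Good) : D.beta s ≠ 0 := by
  unfold Dat.beta
  rw [← hD.deg s, coeff_natDegree]
  exact leadingCoeff_ne_zero.2 (hD.sep s).ne_zero

omit hb in
lemma Dat.Good.cover (hD : D.Good) : ∃ p q : D.A s, p * D.ty s + q * D.tx s = 1 := by
  obtain ⟨u, v, huv⟩ := hD.sep s
  have h1 := congrArg (Polynomial.aeval (D.x s)) huv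
  rw [map_add, map_mul, map_mul, map_one] at h1
  have hrel := D.rel s
  unfold Dat.val at hrel
  rw [← D.aeval_a, ← D.aeval_b] at hrel
  have hty : D.ty s = algebraMap K (D.A s) (D.n : K) * D.y s ^ (D.n - 1) := by
    unfold Dat.ty Dat.pol
    rw [derivative_add, derivative_add, derivative_C, add_zero, derivative_C_mul,
      derivative_X_pow, derivative_X_pow]
    have h0 : C (D.a s) * (C ((D.j : ℕ) : K[X]) * X ^ (D.j - 1)) = 0 := by
      rcases hD.j_zero with h | h
      · have : ((D.j : ℕ) : K[X]) = 0 := by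
          rw [← map_natCast C, h, C_0]
        rw [this, C_0, zero_mul, mul_zero]
      · have : D.a s = 0 := by
          unfold Dat.a
          rw [h, map_zero]
        rw [this, C_0, zero_mul]
    rw [h0, add_zero, map_mul, map_pow, AdjoinRoot.mk_X]
    congr 1
  have hbeta := Dat.Good.beta_ne D s hD
  set Y := D.y s with hY
  set B := Polynomial.aeval (D.x s) (D.b s)
  set B' := Polynomial.aeval (D.x s) (derivative (D.b s))
  set A0 := Polynomial.aeval (D.x s) (D.a s)
  set A' := Polynomial.aeval (D.x s) (derivative (D.a s))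
  set U := Polynomial.aeval (D.x s) u
  set V := Polynomial.aeval (D.x s) v
  have hj := D.j_pos
  have hn := D.n_pos
  have ej : Y ^ D.j = Y * Y ^ (D.j - 1) := by
    rw [← pow_succ']
    congr 1
    omega
  have en : Y ^ D.n = Y * Y ^ (D.n - 1) := by
    rw [← pow_succ']
    congr 1
    omega
  have hc : IsCoprime Y (B' + Y ^ D.j * A') := by
    refine ⟨-(U * Y ^ (D.n - 1)) - U * A0 * Y ^ (D.j - 1) - V * Y ^ (D.j - 1) * A', V, ?_⟩
    rw [← h1]
    linear_combination (-U) * hrel + (U * en) + (U * A0) * ej + V * A' * ej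
  have hc2 : IsCoprime (Y ^ (D.n - 1)) (B' + Y ^ D.j * A') := hc.pow_left
  obtain ⟨p, q, hpq⟩ := hc2
  refine ⟨p * algebraMap K (D.A s) (D.n : K)⁻¹, q * algebraMap K (D.A s) (D.beta s), ?_⟩
  rw [hty]
  unfold Dat.tx
  have i1 : algebraMap K (D.A s) (D.n : K)⁻¹ * algebraMap K (D.A s) (D.n : K) = 1 := by
    rw [← map_mul, inv_mul_cancel₀ hD.n_ne, map_one]
  have i2 : algebraMap K (D.A s) (D.beta s) * algebraMap K (D.A s) (D.beta s)⁻¹ = 1 := by
    rw [← map_mul, mul_inv_cancel₀ hbeta, map_one]
  rw [← hpq]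
  linear_combination (p * Y ^ (D.n - 1)) * i1 + (q * (B' + Y ^ D.j * A')) * i2

end smooth

end Pool.Agent.Y939.NG
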